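import Mathlib

/-! Explicit polynomials and the pointwise inequalities they satisfy on the triangle
`p ≤ 1`, `q ≤ 1`, `1 ≤ p + q`. -/

set_option autoImplicit false
set_option linter.unusedSimpArgs false

namespace Pool.Agent.P.MP_8de615_co

/-- Numerator of the multiplier. -/
noncomputable def Nn (p q : ℝ) : ℝ :=
  32 / 25 + 9 / 25 * q + 153 / 400 * p - 349 / 200 * q ^ 2 - 41 / 40 * p * q - 61 / 400 * p ^ 2 + 7 / 25 * q ^ 3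
  + 623 / 200 * p * q ^ 2 - 31 / 50 * p ^ 2 * q + 51 / 200 * p ^ 3 + 57 / 50 * q ^ 4 + 11 / 20 * p * q ^ 3
  - 119 / 200 * p ^ 2 * q ^ 2 + 11 / 4 * p ^ 3 * q - 503 / 200 * p ^ 4 + 9 / 25 * q ^ 5 - 1399 / 400 * p * q ^ 4
  + 81 / 50 * p ^ 2 * q ^ 3 - 1047 / 200 * p ^ 3 * q ^ 2 + 59 / 25 * p ^ 4 * q - 51 / 80 * p ^ 5
  - 27 / 40 * q ^ 6 + 59 / 40 * p * q ^ 5 - 297 / 400 * p ^ 2 * q ^ 4 + 3 / 4 * p ^ 3 * q ^ 3 + 33 / 25 * p ^ 4 * q ^ 2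
  - 29 / 40 * p ^ 5 * q + 111 / 80 * p ^ 6 + 11 / 10 * p ^ 3 * q ^ 4 - 11 / 10 * p ^ 4 * q ^ 3 + 11 / 10 * p ^ 5 * q ^ 2
  - 11 / 10 * p ^ 6 * q

/-- Its first derivative. -/
noncomputable def Np (p q : ℝ) : ℝ :=
  153 / 400 - 41 / 40 * q - 61 / 200 * p + 623 / 200 * q ^ 2 - 31 / 25 * p * q + 153 / 200 * p ^ 2
  + 11 / 20 * q ^ 3 - 119 / 100 * p * q ^ 2 + 33 / 4 * p ^ 2 * q - 503 / 50 * p ^ 3 - 1399 / 400 * q ^ 4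
  + 81 / 25 * p * q ^ 3 - 3141 / 200 * p ^ 2 * q ^ 2 + 236 / 25 * p ^ 3 * q - 51 / 16 * p ^ 4 + 59 / 40 * q ^ 5
  - 297 / 200 * p * q ^ 4 + 9 / 4 * p ^ 2 * q ^ 3 + 132 / 25 * p ^ 3 * q ^ 2 - 29 / 8 * p ^ 4 * q
  + 333 / 40 * p ^ 5 + 33 / 10 * p ^ 2 * q ^ 4 - 22 / 5 * p ^ 3 * q ^ 3 + 11 / 2 * p ^ 4 * q ^ 2
  - 33 / 5 * p ^ 5 * q

/-- Its second derivative. -/
noncomputable def Nq (p q : ℝ) : ℝ :=
  9 / 25 - 349 / 100 * q - 41 / 40 * p + 21 / 25 * q ^ 2 + 623 / 100 * p * q - 31 / 50 * p ^ 2 + 114 / 25 * q ^ 3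
  + 33 / 20 * p * q ^ 2 - 119 / 100 * p ^ 2 * q + 11 / 4 * p ^ 3 + 9 / 5 * q ^ 4 - 1399 / 100 * p * q ^ 3
  + 243 / 50 * p ^ 2 * q ^ 2 - 1047 / 100 * p ^ 3 * q + 59 / 25 * p ^ 4 - 81 / 20 * q ^ 5 + 59 / 8 * p * q ^ 4
  - 297 / 100 * p ^ 2 * q ^ 3 + 9 / 4 * p ^ 3 * q ^ 2 + 66 / 25 * p ^ 4 * q - 29 / 40 * p ^ 5 + 22 / 5 * p ^ 3 * q ^ 3
  - 33 / 10 * p ^ 4 * q ^ 2 + 11 / 5 * p ^ 5 * q - 11 / 10 * p ^ 6

/-- Polynomial part of the potential. -/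
noncomputable def Fp (p q : ℝ) : ℝ :=
  -(1 / 2 * q) + 1 / 2 * p + 149 / 400 * q ^ 2 + 1 / 2 * p * q - 149 / 400 * p ^ 2 + q ^ 3 - 51 / 40 * p * q ^ 2
  + 51 / 40 * p ^ 2 * q - p ^ 3 - 149 / 200 * q ^ 4 + 149 / 200 * p ^ 4 - 1 / 2 * q ^ 5 + 21 / 20 * p * q ^ 4
  - 31 / 20 * p ^ 2 * q ^ 3 + 31 / 20 * p ^ 3 * q ^ 2 - 21 / 20 * p ^ 4 * q + 1 / 2 * p ^ 5 + 149 / 400 * q ^ 6
  + 149 / 400 * p ^ 2 * q ^ 4 - 149 / 400 * p ^ 4 * q ^ 2 - 149 / 400 * p ^ 6 - 11 / 40 * p * q ^ 6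
  + 11 / 40 * p ^ 2 * q ^ 5 - 11 / 20 * p ^ 3 * q ^ 4 + 11 / 20 * p ^ 4 * q ^ 3 - 11 / 40 * p ^ 5 * q ^ 2
  + 11 / 40 * p ^ 6 * q

/-- Its second derivative. -/
noncomputable def Fq (p q : ℝ) : ℝ :=
  -(1 / 2) + 149 / 200 * q + 1 / 2 * p + 3 * q ^ 2 - 51 / 20 * p * q + 51 / 40 * p ^ 2 - 149 / 50 * q ^ 3
  - 5 / 2 * q ^ 4 + 21 / 5 * p * q ^ 3 - 93 / 20 * p ^ 2 * q ^ 2 + 31 / 10 * p ^ 3 * q - 21 / 20 * p ^ 4
  + 447 / 200 * q ^ 5 + 149 / 100 * p ^ 2 * q ^ 3 - 149 / 200 * p ^ 4 * q - 33 / 20 * p * q ^ 5 + 11 / 8 * p ^ 2 * q ^ 4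
  - 11 / 5 * p ^ 3 * q ^ 3 + 33 / 20 * p ^ 4 * q ^ 2 - 11 / 20 * p ^ 5 * q + 11 / 40 * p ^ 6

/-- The total weight potential. -/
noncomputable def La (p q : ℝ) : ℝ :=
  71 / 50 * q - 71 / 50 * p - 23 / 25 * q ^ 2 + 23 / 25 * p ^ 2 + 1 / 2 * q ^ 3 + 21 / 50 * p * q ^ 2
  - 21 / 50 * p ^ 2 * q - 1 / 2 * p ^ 3

/-- Its second derivative. -/
noncomputable def Lq (p q : ℝ) : ℝ :=
  71 / 50 - 46 / 25 * q + 3 / 2 * q ^ 2 + 21 / 25 * p * q - 21 / 50 * p ^ 2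

/-- Numerator of the weight. -/
noncomputable def wn (p q : ℝ) : ℝ :=
  p - q ^ 2 - p ^ 2 + 149 / 100 * q ^ 3 + 149 / 100 * p ^ 2 * q + 5 * q ^ 4 - 51 / 10 * p * q ^ 3
  + 131 / 20 * p ^ 2 * q ^ 2 - 51 / 10 * p ^ 3 * q + 31 / 20 * p ^ 4 - 447 / 100 * q ^ 5 - 149 / 50 * p ^ 2 * q ^ 3
  + 149 / 100 * p ^ 4 * q + 33 / 10 * p * q ^ 5 - 11 / 4 * p ^ 2 * q ^ 4 + 22 / 5 * p ^ 3 * q ^ 3
  - 33 / 10 * p ^ 4 * q ^ 2 + 11 / 10 * p ^ 5 * q - 11 / 20 * p ^ 6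

theorem ineq_V {p q : ℝ} (hp : p ≤ 1) (hq : q ≤ 1) (hs : 1 ≤ p + q) (hl : 0 ≤ 1 - p ^ 2 - q ^ 2) :
    0 ≤ ((2 * Nn p q - Np p q * (1 + p)) * (p ^ 2 + q ^ 2) - (1 + p) ^ 3 * wn q p) := by
  rcases le_total 0 (q - p) with h | h
  · have h : ∀ u v z l : ℝ, 0 ≤ u → 0 ≤ v → 0 ≤ z → 0 ≤ l → 0 ≤
        l * (229 / 100 * z ^ 7 + 3089 / 400 * v * z ^ 6 + 899 / 80 * v ^ 2 * z ^ 5 + 671 / 64 * v ^ 3 * z ^ 4
        + 11941 / 1600 * v ^ 4 * z ^ 3 + 473 / 128 * v ^ 5 * z ^ 2 + 3233 / 3200 * v ^ 6 * z + 687 / 6400 * v ^ 7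
        + 1777 / 200 * u * z ^ 6 + 401 / 16 * u * v * z ^ 5 + 6417 / 200 * u * v ^ 2 * z ^ 4 + 10489 / 400 * u * v ^ 3 * z ^ 3
        + 1101 / 80 * u * v ^ 4 * z ^ 2 + 5923 / 1600 * u * v ^ 5 * z + 997 / 3200 * u * v ^ 6 + 328 / 25 * u ^ 2 * z ^ 5
        + 23437 / 800 * u ^ 2 * v * z ^ 4 + 24473 / 800 * u ^ 2 * v ^ 2 * z ^ 3 + 4061 / 200 * u ^ 2 * v ^ 3 * z ^ 2
        + 2373 / 320 * u ^ 2 * v ^ 4 * z + 757 / 800 * u ^ 2 * v ^ 5 + 3981 / 400 * u ^ 3 * z ^ 4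
        + 1389 / 80 * u ^ 3 * v * z ^ 3 + 14759 / 800 * u ^ 3 * v ^ 2 * z ^ 2 + 1293 / 100 * u ^ 3 * v ^ 3 * z
        + 1121 / 320 * u ^ 3 * v ^ 4 + 1053 / 200 * u ^ 4 * z ^ 3 + 8063 / 800 * u ^ 4 * v * z ^ 2
        + 1007 / 80 * u ^ 4 * v ^ 2 * z + 9047 / 1600 * u ^ 4 * v ^ 3 + 203 / 80 * u ^ 5 * z ^ 2
        + 983 / 200 * u ^ 5 * v * z + 359 / 100 * u ^ 5 * v ^ 2 + 3 / 4 * u ^ 6 * z + 309 / 400 * u ^ 6 * v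
        + 1 / 20 * u ^ 7) := by
      intro u v z l _ _ _ _
      positivity
    refine (h (q - p) (2 - 2 * q) (-1 + q + p) (1 - p ^ 2 - q ^ 2) (by linarith) (by linarith)
      (by linarith) (by linarith)).trans_eq ?_
    simp only [Nn, Np, Nq, Lq, wn]
    ring
  · have h : ∀ u v z l : ℝ, 0 ≤ u → 0 ≤ v → 0 ≤ z → 0 ≤ l → 0 ≤
        l * (229 / 100 * z ^ 7 + 164 / 25 * v * z ^ 6 + 1589 / 200 * v ^ 2 * z ^ 5 + 167 / 40 * v ^ 3 * z ^ 4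
        + 507 / 200 * v ^ 4 * z ^ 3 + 863 / 200 * v ^ 5 * z ^ 2 + 67 / 25 * v ^ 6 * z + 2 / 5 * v ^ 7
        + 3089 / 400 * u * z ^ 6 + 1591 / 80 * u * v * z ^ 5 + 4283 / 160 * u * v ^ 2 * z ^ 4 + 11661 / 400 * u * v ^ 3 * z ^ 3
        + 5627 / 160 * u * v ^ 4 * z ^ 2 + 5081 / 200 * u * v ^ 5 * z + 1227 / 200 * u * v ^ 6 + 899 / 80 * u ^ 2 * z ^ 5
        + 24657 / 800 * u ^ 2 * v * z ^ 4 + 41897 / 800 * u ^ 2 * v ^ 2 * z ^ 3 + 10993 / 160 * u ^ 2 * v ^ 3 * z ^ 2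
        + 23723 / 400 * u ^ 2 * v ^ 4 * z + 15457 / 800 * u ^ 2 * v ^ 5 + 671 / 64 * u ^ 3 * z ^ 4
        + 13393 / 400 * u ^ 3 * v * z ^ 3 + 23207 / 400 * u ^ 3 * v ^ 2 * z ^ 2 + 5997 / 100 * u ^ 3 * v ^ 3 * z
        + 41187 / 1600 * u ^ 3 * v ^ 4 + 11941 / 1600 * u ^ 4 * z ^ 3 + 7421 / 320 * u ^ 4 * v * z ^ 2
        + 1985 / 64 * u ^ 4 * v ^ 2 * z + 5543 / 320 * u ^ 4 * v ^ 3 + 473 / 128 * u ^ 5 * z ^ 2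
        + 539 / 64 * u ^ 5 * v * z + 9959 / 1600 * u ^ 5 * v ^ 2 + 3233 / 3200 * u ^ 6 * z + 953 / 800 * u ^ 6 * v
        + 687 / 6400 * u ^ 7) := by
      intro u v z l _ _ _ _
      positivity
    refine (h (2 - 2 * p) (-q + p) (-1 + q + p) (1 - p ^ 2 - q ^ 2) (by linarith) (by linarith)
      (by linarith) (by linarith)).trans_eq ?_
    simp only [Nn, Np, Nq, Lq, wn]
    ring

theorem ineq_H1 {p q : ℝ} (hp : p ≤ 1) (hq : q ≤ 1) (hs : 1 ≤ p + q) (hl : 0 ≤ 1 - p ^ 2 - q ^ 2) :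
    0 ≤ ((q * Nq p q + Nn p q) * (p ^ 2 + q ^ 2) - q * (1 + p) ^ 2 * wn p q) := by
  rcases le_total 0 (q - p) with h | h
  · rcases le_total 0 (1 - 2 * p) with h | h
    · rcases le_total 0 (-1 + 2 * q - 2 * p) with h | h
      · have h : ∀ u v z l : ℝ, 0 ≤ u → 0 ≤ v → 0 ≤ z → 0 ≤ l → 0 ≤
            l * (1879 / 5120 * z ^ 7 + 13187 / 6400 * v * z ^ 6 + 20471 / 4096 * v ^ 2 * z ^ 5 + 713057 / 102400 * v ^ 3 * z ^ 4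
            + 62827 / 10240 * v ^ 4 * z ^ 3 + 281627 / 81920 * v ^ 5 * z ^ 2 + 230243 / 204800 * v ^ 6 * z
            + 26673 / 163840 * v ^ 7 + 70857 / 25600 * u * z ^ 6 + 311567 / 25600 * u * v * z ^ 5
            + 466131 / 20480 * u * v ^ 2 * z ^ 4 + 1226287 / 51200 * u * v ^ 3 * z ^ 3 + 15753 / 1024 * u * v ^ 4 * z ^ 2
            + 589609 / 102400 * u * v ^ 5 * z + 394803 / 409600 * u * v ^ 6 + 107069 / 12800 * u ^ 2 * z ^ 5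
            + 729203 / 25600 * u ^ 2 * v * z ^ 4 + 202551 / 5120 * u ^ 2 * v ^ 2 * z ^ 3 + 750363 / 25600 * u ^ 2 * v ^ 3 * z ^ 2
            + 155491 / 12800 * u ^ 2 * v ^ 4 * z + 58613 / 25600 * u ^ 2 * v ^ 5 + 85271 / 6400 * u ^ 3 * z ^ 4
            + 107311 / 3200 * u ^ 3 * v * z ^ 3 + 808933 / 25600 * u ^ 3 * v ^ 2 * z ^ 2 + 71833 / 5120 * u ^ 3 * v ^ 3 * z
            + 139187 / 51200 * u ^ 3 * v ^ 4 + 38587 / 3200 * u ^ 4 * z ^ 3 + 25923 / 1280 * u ^ 4 * v * z ^ 2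
            + 33319 / 3200 * u ^ 4 * v ^ 2 * z + 10743 / 6400 * u ^ 4 * v ^ 3 + 4867 / 800 * u ^ 5 * z ^ 2
            + 8631 / 1600 * u ^ 5 * v * z + 2013 / 3200 * u ^ 5 * v ^ 2 + 301 / 200 * u ^ 6 * z + 3 / 10 * u ^ 6 * v
            + 3 / 25 * u ^ 7) := by
          intro u v z l _ _ _ _
          positivity
        refine (h (-1 + 2 * q - 2 * p) (4 - 4 * q) (-2 + 2 * q + 2 * p) (1 - p ^ 2 - q ^ 2) (by linarith) (by linarith)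
          (by linarith) (by linarith)).trans_eq ?_
        simp only [Nn, Np, Nq, Lq, wn]
        ring
      · have h : ∀ u v z l : ℝ, 0 ≤ u → 0 ≤ v → 0 ≤ z → 0 ≤ l → 0 ≤
            l * (1879 / 5120 * z ^ 7 + 34639 / 25600 * v * z ^ 6 + 102779 / 25600 * v ^ 2 * z ^ 5
            + 212781 / 25600 * v ^ 3 * z ^ 4 + 15667 / 1600 * v ^ 4 * z ^ 3 + 81709 / 12800 * v ^ 5 * z ^ 2
            + 7001 / 3200 * v ^ 6 * z + 501 / 1600 * v ^ 7 + 13187 / 6400 * u * z ^ 6 + 12513 / 1600 * u * v * z ^ 5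
            + 537719 / 25600 * u * v ^ 2 * z ^ 4 + 86097 / 2560 * u * v ^ 3 * z ^ 3 + 725359 / 25600 * u * v ^ 4 * z ^ 2
            + 37901 / 3200 * u * v ^ 5 * z + 1009 / 512 * u * v ^ 6 + 20471 / 4096 * u ^ 2 * z ^ 5
            + 1947687 / 102400 * u ^ 2 * v * z ^ 4 + 551757 / 12800 * u ^ 2 * v ^ 2 * z ^ 3 + 32053 / 640 * u ^ 2 * v ^ 3 * z ^ 2
            + 2157 / 80 * u ^ 2 * v ^ 4 * z + 17393 / 3200 * u ^ 2 * v ^ 5 + 713057 / 102400 * u ^ 3 * z ^ 4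
            + 1286793 / 51200 * u ^ 3 * v * z ^ 3 + 2240201 / 51200 * u ^ 3 * v ^ 2 * z ^ 2 + 837461 / 25600 * u ^ 3 * v ^ 3 * z
            + 433203 / 51200 * u ^ 3 * v ^ 4 + 62827 / 10240 * u ^ 4 * z ^ 3 + 155603 / 8192 * u ^ 4 * v * z ^ 2
            + 281891 / 12800 * u ^ 4 * v ^ 2 * z + 202969 / 25600 * u ^ 4 * v ^ 3 + 281627 / 81920 * u ^ 5 * z ^ 2
            + 791849 / 102400 * u ^ 5 * v * z + 900751 / 204800 * u ^ 5 * v ^ 2 + 230243 / 204800 * u ^ 6 * z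
            + 4209 / 3200 * u ^ 6 * v + 26673 / 163840 * u ^ 7) := by
          intro u v z l _ _ _ _
          positivity
        refine (h (2 - 4 * p) (1 - 2 * q + 2 * p) (-2 + 2 * q + 2 * p) (1 - p ^ 2 - q ^ 2) (by linarith) (by linarith)
          (by linarith) (by linarith)).trans_eq ?_
        simp only [Nn, Np, Nq, Lq, wn]
        ring
    · have h : ∀ u v z l : ℝ, 0 ≤ u → 0 ≤ v → 0 ≤ z → 0 ≤ l → 0 ≤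
          l * (501 / 1600 * z ^ 7 + 10407 / 6400 * v * z ^ 6 + 127 / 25 * v ^ 2 * z ^ 5 + 40449 / 3200 * v ^ 3 * z ^ 4
          + 33557 / 1600 * v ^ 4 * z ^ 3 + 15711 / 800 * v ^ 5 * z ^ 2 + 3559 / 400 * v ^ 6 * z + 27 / 20 * v ^ 7
          + 7001 / 3200 * u * z ^ 6 + 31913 / 3200 * u * v * z ^ 5 + 85519 / 3200 * u * v ^ 2 * z ^ 4
          + 170759 / 3200 * u * v ^ 3 * z ^ 3 + 103781 / 1600 * u * v ^ 4 * z ^ 2 + 30689 / 800 * u * v ^ 5 * z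
          + 3073 / 400 * u * v ^ 6 + 81709 / 12800 * u ^ 2 * z ^ 5 + 156801 / 6400 * u ^ 2 * v * z ^ 4
          + 69631 / 1280 * u ^ 2 * v ^ 2 * z ^ 3 + 534439 / 6400 * u ^ 2 * v ^ 3 * z ^ 2 + 213883 / 3200 * u ^ 2 * v ^ 4 * z
          + 14813 / 800 * u ^ 2 * v ^ 5 + 15667 / 1600 * u ^ 3 * z ^ 4 + 194549 / 6400 * u ^ 3 * v * z ^ 3
          + 354467 / 6400 * u ^ 3 * v ^ 2 * z ^ 2 + 19577 / 320 * u ^ 3 * v ^ 3 * z + 79103 / 3200 * u ^ 3 * v ^ 4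
          + 212781 / 25600 * u ^ 4 * z ^ 3 + 107899 / 5120 * u ^ 4 * v * z ^ 2 + 410457 / 12800 * u ^ 4 * v ^ 2 * z
          + 128069 / 6400 * u ^ 4 * v ^ 3 + 102779 / 25600 * u ^ 5 * z ^ 2 + 24641 / 2560 * u ^ 5 * v * z
          + 127717 / 12800 * u ^ 5 * v ^ 2 + 34639 / 25600 * u ^ 6 * z + 73473 / 25600 * u ^ 6 * v
          + 1879 / 5120 * u ^ 7 + l * (2 * v)) := by
        intro u v z l _ _ _ _
        positivity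
      refine (h (2 * q - 2 * p) (-1 + 2 * p) (2 - 2 * q) (1 - p ^ 2 - q ^ 2) (by linarith) (by linarith)
        (by linarith) (by linarith)).trans_eq ?_
      simp only [Nn, Np, Nq, Lq, wn]
      ring
  · have h : ∀ u v z l : ℝ, 0 ≤ u → 0 ≤ v → 0 ≤ z → 0 ≤ l → 0 ≤
        l * (7 / 20 * z ^ 7 + 172 / 25 * v * z ^ 6 + 6421 / 200 * v ^ 2 * z ^ 5 + 11081 / 200 * v ^ 3 * z ^ 4
        + 5179 / 100 * v ^ 4 * z ^ 3 + 154 / 5 * v ^ 5 * z ^ 2 + 272 / 25 * v ^ 6 * z + 51 / 25 * v ^ 7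
        + 1959 / 400 * u * z ^ 6 + 16087 / 400 * u * v * z ^ 5 + 99001 / 800 * u * v ^ 2 * z ^ 4
        + 645 / 4 * u * v ^ 3 * z ^ 3 + 94299 / 800 * u * v ^ 4 * z ^ 2 + 5037 / 100 * u * v ^ 5 * z
        + 251 / 25 * u * v ^ 6 + 11311 / 800 * u ^ 2 * z ^ 5 + 13249 / 160 * u ^ 2 * v * z ^ 4 + 289413 / 1600 * u ^ 2 * v ^ 2 * z ^ 3
        + 277299 / 1600 * u ^ 2 * v ^ 3 * z ^ 2 + 446 / 5 * u ^ 2 * v ^ 4 * z + 16411 / 800 * u ^ 2 * v ^ 5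
        + 30357 / 1600 * u ^ 3 * z ^ 4 + 26973 / 320 * u ^ 3 * v * z ^ 3 + 25647 / 200 * u ^ 3 * v ^ 2 * z ^ 2
        + 26451 / 320 * u ^ 3 * v ^ 3 * z + 1813 / 80 * u ^ 3 * v ^ 4 + 46849 / 3200 * u ^ 4 * z ^ 3
        + 151269 / 3200 * u ^ 4 * v * z ^ 2 + 146343 / 3200 * u ^ 4 * v ^ 2 * z + 48781 / 3200 * u ^ 4 * v ^ 3
        + 177 / 25 * u ^ 5 * z ^ 2 + 5891 / 400 * u ^ 5 * v * z + 893 / 128 * u ^ 5 * v ^ 2 + 13607 / 6400 * u ^ 6 * z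
        + 13659 / 6400 * u ^ 6 * v + 501 / 1600 * u ^ 7 + l * (z + v)) := by
      intro u v z l _ _ _ _
      positivity
    refine (h (2 - 2 * p) (-q + p) (-1 + q + p) (1 - p ^ 2 - q ^ 2) (by linarith) (by linarith)
      (by linarith) (by linarith)).trans_eq ?_
    simp only [Nn, Np, Nq, Lq, wn]
    ring

theorem ineq_H2 {p q : ℝ} (hp : p ≤ 1) (hq : q ≤ 1) (hs : 1 ≤ p + q) (hl : 0 ≤ 1 - p ^ 2 - q ^ 2) :
    0 ≤ (((1 - q) * Nq p q + (1 + p) ^ 2 - Nn p q) * (p ^ 2 + q ^ 2) - (1 - q) * (1 + p) ^ 2 * wn p q) := by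
  rcases le_total 0 (q - p) with h | h
  · have h : ∀ u v z l : ℝ, 0 ≤ u → 0 ≤ v → 0 ≤ z → 0 ≤ l → 0 ≤
        139 / 25 * z ^ 9 + 16193 / 400 * v * z ^ 8 + 98953 / 800 * v ^ 2 * z ^ 7 + 339133 / 1600 * v ^ 3 * z ^ 6
        + 28759 / 128 * v ^ 4 * z ^ 5 + 96743 / 640 * v ^ 5 * z ^ 4 + 100907 / 1600 * v ^ 6 * z ^ 3
        + 23951 / 1600 * v ^ 7 * z ^ 2 + 20243 / 12800 * v ^ 8 * z + 81 / 6400 * v ^ 9 + 7117 / 200 * u * z ^ 8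
        + 86891 / 400 * u * v * z ^ 7 + 27833 / 50 * u * v ^ 2 * z ^ 6 + 1253983 / 1600 * u * v ^ 3 * z ^ 5
        + 2097077 / 3200 * u * v ^ 4 * z ^ 4 + 16247 / 50 * u * v ^ 5 * z ^ 3 + 70791 / 800 * u * v ^ 6 * z ^ 2
        + 66139 / 6400 * u * v ^ 7 * z + 717 / 12800 * u * v ^ 8 + 973 / 10 * u ^ 2 * z ^ 7 + 396057 / 800 * u ^ 2 * v * z ^ 6
        + 1675671 / 1600 * u ^ 2 * v ^ 2 * z ^ 5 + 1878783 / 1600 * u ^ 2 * v ^ 3 * z ^ 4 + 1171079 / 1600 * u ^ 2 * v ^ 4 * z ^ 3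
        + 384199 / 1600 * u ^ 2 * v ^ 5 * z ^ 2 + 210929 / 6400 * u ^ 2 * v ^ 6 * z + 99 / 320 * u ^ 2 * v ^ 7
        + 60887 / 400 * u ^ 3 * z ^ 6 + 63763 / 100 * u ^ 3 * v * z ^ 5 + 1727033 / 1600 * u ^ 3 * v ^ 2 * z ^ 4
        + 145653 / 160 * u ^ 3 * v ^ 3 * z ^ 3 + 15193 / 40 * u ^ 3 * v ^ 4 * z ^ 2 + 51073 / 800 * u ^ 3 * v ^ 5 * z
        + 5469 / 6400 * u ^ 3 * v ^ 6 + 60247 / 400 * u ^ 4 * z ^ 5 + 402621 / 800 * u ^ 4 * v * z ^ 4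
        + 258191 / 400 * u ^ 4 * v ^ 2 * z ^ 3 + 294959 / 800 * u ^ 4 * v ^ 3 * z ^ 2 + 63391 / 800 * u ^ 4 * v ^ 4 * z
        + 117 / 128 * u ^ 4 * v ^ 5 + 19399 / 200 * u ^ 5 * z ^ 4 + 2447 / 10 * u ^ 5 * v * z ^ 3
        + 85793 / 400 * u ^ 5 * v ^ 2 * z ^ 2 + 507 / 8 * u ^ 5 * v ^ 3 * z + 451 / 1600 * u ^ 5 * v ^ 4
        + 3981 / 100 * u ^ 6 * z ^ 3 + 13559 / 200 * u ^ 6 * v * z ^ 2 + 12411 / 400 * u ^ 6 * v ^ 2 * z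
        + 21 / 160 * u ^ 6 * v ^ 3 + 949 / 100 * u ^ 7 * z ^ 2 + 819 / 100 * u ^ 7 * v * z + 43 / 200 * u ^ 7 * v ^ 2
        + u ^ 8 * z + 1 / 100 * u ^ 8 * v := by
      intro u v z l _ _ _ _
      positivity
    refine (h (q - p) (2 - 2 * q) (-1 + q + p) (0) (by linarith) (by linarith)
      (by linarith) (by linarith)).trans_eq ?_
    simp only [Nn, Np, Nq, Lq, wn]
    ring
  · have h : ∀ u v z l : ℝ, 0 ≤ u → 0 ≤ v → 0 ≤ z → 0 ≤ l → 0 ≤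
        139 / 25 * z ^ 9 + 2269 / 50 * v * z ^ 8 + 15761 / 100 * v ^ 2 * z ^ 7 + 6139 / 20 * v ^ 3 * z ^ 6
        + 77899 / 200 * v ^ 4 * z ^ 5 + 67531 / 200 * v ^ 5 * z ^ 4 + 9933 / 50 * v ^ 6 * z ^ 3 + 3867 / 50 * v ^ 7 * z ^ 2
        + 18 * v ^ 8 * z + 2 * v ^ 9 + 16193 / 400 * u * z ^ 8 + 22203 / 80 * u * v * z ^ 7 + 649543 / 800 * u * v ^ 2 * z ^ 6
        + 53457 / 40 * u * v ^ 3 * z ^ 5 + 1118937 / 800 * u * v ^ 4 * z ^ 4 + 189691 / 200 * u * v ^ 5 * z ^ 3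
        + 10156 / 25 * u * v ^ 6 * z ^ 2 + 5067 / 50 * u * v ^ 7 * z + 279 / 25 * u * v ^ 8 + 98953 / 800 * u ^ 2 * z ^ 7
        + 572071 / 800 * u ^ 2 * v * z ^ 6 + 2779473 / 1600 * u ^ 2 * v ^ 2 * z ^ 5 + 3729341 / 1600 * u ^ 2 * v ^ 3 * z ^ 4
        + 75621 / 40 * u ^ 2 * v ^ 4 * z ^ 3 + 45699 / 50 * u ^ 2 * v ^ 5 * z ^ 2 + 24447 / 100 * u ^ 2 * v ^ 6 * z
        + 5537 / 200 * u ^ 2 * v ^ 7 + 339133 / 1600 * u ^ 3 * z ^ 6 + 1621917 / 1600 * u ^ 3 * v * z ^ 5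
        + 126591 / 64 * u ^ 3 * v ^ 2 * z ^ 4 + 1630531 / 800 * u ^ 3 * v ^ 3 * z ^ 3 + 927779 / 800 * u ^ 3 * v ^ 4 * z ^ 2
        + 134787 / 400 * u ^ 3 * v ^ 5 * z + 30899 / 800 * u ^ 3 * v ^ 6 + 28759 / 128 * u ^ 4 * z ^ 5
        + 2740073 / 3200 * u ^ 4 * v * z ^ 4 + 2026459 / 1600 * u ^ 4 * v ^ 2 * z ^ 3 + 144563 / 160 * u ^ 4 * v ^ 3 * z ^ 2
        + 473547 / 1600 * u ^ 4 * v ^ 4 * z + 52007 / 1600 * u ^ 4 * v ^ 5 + 96743 / 640 * u ^ 5 * z ^ 4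
        + 34549 / 80 * u ^ 5 * v * z ^ 3 + 697099 / 1600 * u ^ 5 * v ^ 2 * z ^ 2 + 27533 / 160 * u ^ 5 * v ^ 3 * z
        + 10923 / 640 * u ^ 5 * v ^ 4 + 100907 / 1600 * u ^ 6 * z ^ 3 + 48433 / 400 * u ^ 6 * v * z ^ 2
        + 418591 / 6400 * u ^ 6 * v ^ 2 * z + 36531 / 6400 * u ^ 6 * v ^ 3 + 23951 / 1600 * u ^ 7 * z ^ 2
        + 19161 / 1280 * u ^ 7 * v * z + 1977 / 1600 * u ^ 7 * v ^ 2 + 20243 / 12800 * u ^ 8 * z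
        + 2199 / 12800 * u ^ 8 * v + 81 / 6400 * u ^ 9 := by
      intro u v z l _ _ _ _
      positivity
    refine (h (2 - 2 * p) (-q + p) (-1 + q + p) (0) (by linarith) (by linarith)
      (by linarith) (by linarith)).trans_eq ?_
    simp only [Nn, Np, Nq, Lq, wn]
    ring

theorem ineq_L {p q : ℝ} (hp : p ≤ 1) (hq : q ≤ 1) (hs : 1 ≤ p + q) (hl : 0 ≤ 1 - p ^ 2 - q ^ 2) :
    0 ≤ (Lq p q * (p ^ 2 + q ^ 2) - wn p q) := by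
  rcases le_total 0 (q - p) with h | h
  · rcases le_total 0 (1 - 2 * p) with h | h
    · rcases le_total 0 (-1 + 2 * q - 2 * p) with h | h
      · rcases le_total 0 (1 - 4 * p) with h | h
        · rcases le_total 0 (-3 + 4 * q - 4 * p) with h | h
          · have h : ∀ u v z l : ℝ, 0 ≤ u → 0 ≤ v → 0 ≤ z → 0 ≤ l → 0 ≤
                185087 / 409600 * z ^ 6 + 417909 / 204800 * v * z ^ 5 + 6040881 / 1638400 * v ^ 2 * z ^ 4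
                + 1371017 / 409600 * v ^ 3 * z ^ 3 + 2534999 / 1638400 * v ^ 4 * z ^ 2 + 31713 / 102400 * v ^ 5 * z
                + 2961 / 262144 * v ^ 6 + 118649 / 51200 * u * z ^ 5 + 341983 / 40960 * u * v * z ^ 4
                + 577329 / 51200 * u * v ^ 2 * z ^ 3 + 278639 / 40960 * u * v ^ 3 * z ^ 2 + 325391 / 204800 * u * v ^ 4 * z
                + 24953 / 819200 * u * v ^ 5 + 15449 / 3200 * u ^ 2 * z ^ 4 + 333613 / 25600 * u ^ 2 * v * z ^ 3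
                + 1199087 / 102400 * u ^ 2 * v ^ 2 * z ^ 2 + 361127 / 102400 * u ^ 2 * v ^ 3 * z
                + 893 / 40960 * u ^ 2 * v ^ 4 + 16517 / 3200 * u ^ 3 * z ^ 3 + 119703 / 12800 * u ^ 3 * v * z ^ 2
                + 54681 / 12800 * u ^ 3 * v ^ 2 * z + 561 / 12800 * u ^ 3 * v ^ 3 + 931 / 320 * u ^ 4 * z ^ 2
                + 4469 / 1600 * u ^ 4 * v * z + 117 / 800 * u ^ 4 * v ^ 2 + 77 / 100 * u ^ 5 * z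
                + 33 / 200 * u ^ 5 * v + 3 / 50 * u ^ 6 := by
              intro u v z l _ _ _ _
              positivity
            refine (h (-3 + 4 * q - 4 * p) (8 - 8 * q) (-4 + 4 * q + 4 * p) (0) (by linarith) (by linarith)
              (by linarith) (by linarith)).trans_eq ?_
            simp only [Nn, Np, Nq, Lq, wn]
            ring
          · have h : ∀ u v z l : ℝ, 0 ≤ u → 0 ≤ v → 0 ≤ z → 0 ≤ l → 0 ≤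
                185087 / 409600 * z ^ 6 + 180611 / 102400 * v * z ^ 5 + 1178693 / 409600 * v ^ 2 * z ^ 4
                + 131881 / 51200 * v ^ 3 * z ^ 3 + 141239 / 102400 * v ^ 4 * z ^ 2 + 689 / 1600 * v ^ 5 * z
                + 1257 / 20480 * v ^ 6 + 417909 / 204800 * u * z ^ 5 + 2621051 / 409600 * u * v * z ^ 4
                + 828871 / 102400 * u * v ^ 2 * z ^ 3 + 34347 / 6400 * u * v ^ 3 * z ^ 2 + 50133 / 25600 * u * v ^ 4 * z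
                + 33137 / 102400 * u * v ^ 5 + 6040881 / 1638400 * u ^ 2 * z ^ 4 + 360747 / 40960 * u ^ 2 * v * z ^ 3
                + 1644001 / 204800 * u ^ 2 * v ^ 2 * z ^ 2 + 180831 / 51200 * u ^ 2 * v ^ 3 * z + 278767 / 409600 * u ^ 2 * v ^ 4
                + 1371017 / 409600 * u ^ 3 * z ^ 3 + 285451 / 51200 * u ^ 3 * v * z ^ 2 + 328083 / 102400 * u ^ 3 * v ^ 2 * z
                + 147339 / 204800 * u ^ 3 * v ^ 3 + 2534999 / 1638400 * u ^ 4 * z ^ 2 + 308869 / 204800 * u ^ 4 * v * z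
                + 129407 / 327680 * u ^ 4 * v ^ 2 + 31713 / 102400 * u ^ 5 * z + 172169 / 1638400 * u ^ 5 * v
                + 2961 / 262144 * u ^ 6 := by
              intro u v z l _ _ _ _
              positivity
            refine (h (2 - 8 * p) (3 - 4 * q + 4 * p) (-4 + 4 * q + 4 * p) (0) (by linarith) (by linarith)
              (by linarith) (by linarith)).trans_eq ?_
            simp only [Nn, Np, Nq, Lq, wn]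
            ring
        · have h : ∀ u v z l : ℝ, 0 ≤ u → 0 ≤ v → 0 ≤ z → 0 ≤ l → 0 ≤
              1257 / 20480 * z ^ 6 + 14907 / 25600 * v * z ^ 5 + 12273 / 5120 * v ^ 2 * z ^ 4 + 6611 / 1280 * v ^ 3 * z ^ 3
              + 154609 / 25600 * v ^ 4 * z ^ 2 + 23203 / 6400 * v ^ 5 * z + 1119 / 1280 * v ^ 6 + 689 / 1600 * u * z ^ 5
              + 96093 / 25600 * u * v * z ^ 4 + 40997 / 3200 * u * v ^ 2 * z ^ 3 + 266803 / 12800 * u * v ^ 3 * z ^ 2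
              + 103371 / 6400 * u * v ^ 4 * z + 30651 / 6400 * u * v ^ 5 + 141239 / 102400 * u ^ 2 * z ^ 4
              + 131053 / 12800 * u ^ 2 * v * z ^ 3 + 1355773 / 51200 * u ^ 2 * v ^ 2 * z ^ 2 + 364581 / 12800 * u ^ 2 * v ^ 3 * z
              + 278217 / 25600 * u ^ 2 * v ^ 4 + 131881 / 51200 * u ^ 3 * z ^ 3 + 149093 / 10240 * u ^ 3 * v * z ^ 2
              + 63457 / 2560 * u ^ 3 * v ^ 2 * z + 33449 / 2560 * u ^ 3 * v ^ 3 + 1178693 / 409600 * u ^ 4 * z ^ 2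
              + 1084931 / 102400 * u ^ 4 * v * z + 897693 / 102400 * u ^ 4 * v ^ 2 + 180611 / 102400 * u ^ 5 * z
              + 317963 / 102400 * u ^ 5 * v + 185087 / 409600 * u ^ 6 := by
            intro u v z l _ _ _ _
            positivity
          refine (h (-2 + 4 * q - 4 * p) (-1 + 4 * p) (4 - 4 * q) (0) (by linarith) (by linarith)
            (by linarith) (by linarith)).trans_eq ?_
          simp only [Nn, Np, Nq, Lq, wn]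
          ring
      · have h : ∀ u v z l : ℝ, 0 ≤ u → 0 ≤ v → 0 ≤ z → 0 ≤ l → 0 ≤
            1119 / 1280 * z ^ 6 + 9337 / 3200 * v * z ^ 5 + 28787 / 6400 * v ^ 2 * z ^ 4 + 21 / 5 * v ^ 3 * z ^ 3
            + 953 / 400 * v ^ 4 * z ^ 2 + 29 / 40 * v ^ 5 * z + 141 / 1600 * v ^ 6 + 23203 / 6400 * u * z ^ 5
            + 31941 / 3200 * u * v * z ^ 4 + 20527 / 1600 * u * v ^ 2 * z ^ 3 + 15133 / 1600 * u * v ^ 3 * z ^ 2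
            + 1453 / 400 * u * v ^ 4 * z + 427 / 800 * u * v ^ 5 + 154609 / 25600 * u ^ 2 * z ^ 4
            + 10767 / 800 * u ^ 2 * v * z ^ 3 + 88643 / 6400 * u ^ 2 * v ^ 2 * z ^ 2 + 22841 / 3200 * u ^ 2 * v ^ 3 * z
            + 8659 / 6400 * u ^ 2 * v ^ 4 + 6611 / 1280 * u ^ 3 * z ^ 3 + 57907 / 6400 * u ^ 3 * v * z ^ 2
            + 43453 / 6400 * u ^ 3 * v ^ 2 * z + 723 / 400 * u ^ 3 * v ^ 3 + 12273 / 5120 * u ^ 4 * z ^ 2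
            + 39807 / 12800 * u ^ 4 * v * z + 33283 / 25600 * u ^ 4 * v ^ 2 + 14907 / 25600 * u ^ 5 * z
            + 5857 / 12800 * u ^ 5 * v + 1257 / 20480 * u ^ 6 := by
          intro u v z l _ _ _ _
          positivity
        refine (h (2 - 4 * p) (1 - 2 * q + 2 * p) (-2 + 2 * q + 2 * p) (0) (by linarith) (by linarith)
          (by linarith) (by linarith)).trans_eq ?_
        simp only [Nn, Np, Nq, Lq, wn]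
        ring
    · have h : ∀ u v z l : ℝ, 0 ≤ u → 0 ≤ v → 0 ≤ z → 0 ≤ l → 0 ≤
          141 / 1600 * z ^ 6 + 729 / 800 * v * z ^ 5 + 2917 / 800 * v ^ 2 * z ^ 4 + 125 / 16 * v ^ 3 * z ^ 3
          + 393 / 40 * v ^ 4 * z ^ 2 + 27 / 4 * v ^ 5 * z + 47 / 25 * v ^ 6 + 29 / 40 * u * z ^ 5
          + 589 / 100 * u * v * z ^ 4 + 15677 / 800 * u * v ^ 2 * z ^ 3 + 1701 / 50 * u * v ^ 3 * z ^ 2
          + 6007 / 200 * u * v ^ 4 * z + 511 / 50 * u * v ^ 5 + 953 / 400 * u ^ 2 * z ^ 4 + 12651 / 800 * u ^ 2 * v * z ^ 3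
          + 2723 / 64 * u ^ 2 * v ^ 2 * z ^ 2 + 8339 / 160 * u ^ 2 * v ^ 3 * z + 4593 / 200 * u ^ 2 * v ^ 4
          + 21 / 5 * u ^ 3 * z ^ 3 + 917 / 40 * u ^ 3 * v * z ^ 2 + 17637 / 400 * u ^ 3 * v ^ 2 * z
          + 10859 / 400 * u ^ 3 * v ^ 3 + 28787 / 6400 * u ^ 4 * z ^ 2 + 2331 / 128 * u ^ 4 * v * z
          + 28503 / 1600 * u ^ 4 * v ^ 2 + 9337 / 3200 * u ^ 5 * z + 2463 / 400 * u ^ 5 * v + 1119 / 1280 * u ^ 6 := by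
        intro u v z l _ _ _ _
        positivity
      refine (h (2 * q - 2 * p) (-1 + 2 * p) (2 - 2 * q) (0) (by linarith) (by linarith)
        (by linarith) (by linarith)).trans_eq ?_
      simp only [Nn, Np, Nq, Lq, wn]
      ring
  · have h : ∀ u v z l : ℝ, 0 ≤ u → 0 ≤ v → 0 ≤ z → 0 ≤ l → 0 ≤
        47 / 25 * z ^ 6 + 217 / 50 * v * z ^ 5 + 113 / 25 * v ^ 2 * z ^ 4 + 239 / 100 * v ^ 3 * z ^ 3
        + 7 / 20 * v ^ 4 * z ^ 2 + 1 / 50 * v ^ 5 * z + 27 / 4 * u * z ^ 5 + 649 / 50 * u * v * z ^ 4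
        + 2897 / 200 * u * v ^ 2 * z ^ 3 + 1491 / 200 * u * v ^ 3 * z ^ 2 + 12 / 5 * u * v ^ 4 * z
        + 19 / 50 * u * v ^ 5 + 393 / 40 * u ^ 2 * z ^ 4 + 3627 / 200 * u ^ 2 * v * z ^ 3 + 7199 / 400 * u ^ 2 * v ^ 2 * z ^ 2
        + 36 / 5 * u ^ 2 * v ^ 3 * z + 7 / 4 * u ^ 2 * v ^ 4 + 125 / 16 * u ^ 3 * z ^ 3 + 2683 / 200 * u ^ 3 * v * z ^ 2
        + 3543 / 400 * u ^ 3 * v ^ 2 * z + 399 / 200 * u ^ 3 * v ^ 3 + 2917 / 800 * u ^ 4 * z ^ 2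
        + 37 / 8 * u ^ 4 * v * z + 1037 / 800 * u ^ 4 * v ^ 2 + 729 / 800 * u ^ 5 * z + 83 / 160 * u ^ 5 * v
        + 141 / 1600 * u ^ 6 := by
      intro u v z l _ _ _ _
      positivity
    refine (h (2 - 2 * p) (-q + p) (-1 + q + p) (0) (by linarith) (by linarith)
      (by linarith) (by linarith)).trans_eq ?_
    simp only [Nn, Np, Nq, Lq, wn]
    ring

theorem ineq_wN {p q : ℝ} (hp : p ≤ 1) (hq : q ≤ 1) (hs : 1 ≤ p + q) :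
    0 ≤ wn p q := by
  have h : ∀ u v z l : ℝ, 0 ≤ u → 0 ≤ v → 0 ≤ z → 0 ≤ l → 0 ≤
      28 / 25 * z ^ 7 + 389 / 50 * v * z ^ 6 + 516 / 25 * v ^ 2 * z ^ 5 + 3059 / 100 * v ^ 3 * z ^ 4
      + 719 / 25 * v ^ 4 * z ^ 3 + 1713 / 100 * v ^ 5 * z ^ 2 + 299 / 50 * v ^ 6 * z + v ^ 7 + 174 / 25 * u * z ^ 6
      + 2063 / 50 * u * v * z ^ 5 + 4149 / 50 * u * v ^ 2 * z ^ 4 + 4561 / 50 * u * v ^ 3 * z ^ 3
      + 3109 / 50 * u * v ^ 4 * z ^ 2 + 593 / 25 * u * v ^ 5 * z + 102 / 25 * u * v ^ 6 + 466 / 25 * u ^ 2 * z ^ 5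
      + 9231 / 100 * u ^ 2 * v * z ^ 4 + 13327 / 100 * u ^ 2 * v ^ 2 * z ^ 3 + 10189 / 100 * u ^ 2 * v ^ 3 * z ^ 2
      + 2223 / 50 * u ^ 2 * v ^ 4 * z + 166 / 25 * u ^ 2 * v ^ 5 + 1487 / 50 * u ^ 3 * z ^ 4 + 5893 / 50 * u ^ 3 * v * z ^ 3
      + 459 / 4 * u ^ 3 * v ^ 2 * z ^ 2 + 2991 / 50 * u ^ 3 * v ^ 3 * z + 396 / 25 * u ^ 3 * v ^ 4
      + 591 / 20 * u ^ 4 * z ^ 3 + 431 / 5 * u ^ 4 * v * z ^ 2 + 453 / 10 * u ^ 4 * v ^ 2 * z + 593 / 50 * u ^ 4 * v ^ 3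
      + 1793 / 100 * u ^ 5 * z ^ 2 + 1697 / 50 * u ^ 5 * v * z + 239 / 50 * u ^ 5 * v ^ 2 + 317 / 50 * u ^ 6 * z
      + 311 / 50 * u ^ 6 * v + 51 / 50 * u ^ 7 := by
    intro u v z l _ _ _ _
    positivity
  refine (h (1 - p) (1 - q) (-1 + q + p) (0) (by linarith) (by linarith)
    (by linarith) (by linarith)).trans_eq ?_
  simp only [Nn, Np, Nq, Lq, wn]
  ring

theorem ineq_oV {p q : ℝ} (hp : p ≤ 1) (hq : q ≤ 1) (hs : 1 ≤ p + q) :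
    0 ≤ (2 * Nn p q - Np p q * (1 + p)) := by
  have h : ∀ u v z l : ℝ, 0 ≤ u → 0 ≤ v → 0 ≤ z → 0 ≤ l → 0 ≤
      667 / 200 * z ^ 7 + 6037 / 200 * v * z ^ 6 + 19779 / 200 * v ^ 2 * z ^ 5 + 35969 / 200 * v ^ 3 * z ^ 4
      + 5003 / 25 * v ^ 4 * z ^ 3 + 3372 / 25 * v ^ 5 * z ^ 2 + 1268 / 25 * v ^ 6 * z + 204 / 25 * v ^ 7
      + 10233 / 400 * u * z ^ 6 + 8901 / 50 * u * v * z ^ 5 + 38239 / 80 * u * v ^ 2 * z ^ 4 + 35437 / 50 * u * v ^ 3 * z ^ 3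
      + 15186 / 25 * u * v ^ 4 * z ^ 2 + 7006 / 25 * u * v ^ 5 * z + 1366 / 25 * u * v ^ 6 + 6543 / 100 * u ^ 2 * z ^ 5
      + 67611 / 200 * u ^ 2 * v * z ^ 4 + 13321 / 20 * u ^ 2 * v ^ 2 * z ^ 3 + 17403 / 25 * u ^ 2 * v ^ 3 * z ^ 2
      + 18489 / 50 * u ^ 2 * v ^ 4 * z + 3797 / 50 * u ^ 2 * v ^ 5 + 7013 / 80 * u ^ 3 * z ^ 4 + 17337 / 50 * u ^ 3 * v * z ^ 3
      + 25097 / 50 * u ^ 3 * v ^ 2 * z ^ 2 + 17801 / 50 * u ^ 3 * v ^ 3 * z + 9491 / 100 * u ^ 3 * v ^ 4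
      + 1763 / 25 * u ^ 4 * z ^ 3 + 4219 / 20 * u ^ 4 * v * z ^ 2 + 2107 / 10 * u ^ 4 * v ^ 2 * z
      + 817 / 10 * u ^ 4 * v ^ 3 + 1701 / 50 * u ^ 5 * z ^ 2 + 1729 / 25 * u ^ 5 * v * z + 3543 / 100 * u ^ 5 * v ^ 2
      + 449 / 50 * u ^ 6 * z + 459 / 50 * u ^ 6 * v + u ^ 7 := by
    intro u v z l _ _ _ _
    positivity
  refine (h (1 - p) (1 - q) (-1 + q + p) (0) (by linarith) (by linarith)
    (by linarith) (by linarith)).trans_eq ?_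
  simp only [Nn, Np, Nq, Lq, wn]
  ring

theorem ineq_oH1 {p q : ℝ} (hp : p ≤ 1) (hq : q ≤ 1) (hs : 1 ≤ p + q) :
    0 ≤ (q * Nq p q + Nn p q) := by
  have h : ∀ u v z l : ℝ, 0 ≤ u → 0 ≤ v → 0 ≤ z → 0 ≤ l → 0 ≤
      513 / 200 * z ^ 7 + 2859 / 200 * v * z ^ 6 + 3021 / 100 * v ^ 2 * z ^ 5 + 212 / 5 * v ^ 3 * z ^ 4
      + 189 / 5 * v ^ 4 * z ^ 3 + 447 / 25 * v ^ 5 * z ^ 2 + 4 * v ^ 6 * z + 1091 / 80 * u * z ^ 6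
      + 16509 / 200 * u * v * z ^ 5 + 60393 / 400 * u * v ^ 2 * z ^ 4 + 4416 / 25 * u * v ^ 3 * z ^ 3
      + 658 / 5 * u * v ^ 4 * z ^ 2 + 1246 / 25 * u * v ^ 5 * z + 202 / 25 * u * v ^ 6 + 13491 / 400 * u ^ 2 * z ^ 5
      + 78779 / 400 * u ^ 2 * v * z ^ 4 + 29057 / 100 * u ^ 2 * v ^ 2 * z ^ 3 + 2673 / 10 * u ^ 2 * v ^ 3 * z ^ 2
      + 3642 / 25 * u ^ 2 * v ^ 4 * z + 798 / 25 * u ^ 2 * v ^ 5 + 10473 / 200 * u ^ 3 * z ^ 4 + 5053 / 20 * u ^ 3 * v * z ^ 3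
      + 6693 / 25 * u ^ 3 * v ^ 2 * z ^ 2 + 4053 / 25 * u ^ 3 * v ^ 3 * z + 4031 / 100 * u ^ 3 * v ^ 4
      + 254 / 5 * u ^ 4 * z ^ 3 + 9101 / 50 * u ^ 4 * v * z ^ 2 + 12641 / 100 * u ^ 4 * v ^ 2 * z
      + 4417 / 100 * u ^ 4 * v ^ 3 + 569 / 20 * u ^ 5 * z ^ 2 + 331 / 5 * u ^ 5 * v * z + 104 / 5 * u ^ 5 * v ^ 2
      + 419 / 50 * u ^ 6 * z + 238 / 25 * u ^ 6 * v + 51 / 50 * u ^ 7 := by
    intro u v z l _ _ _ _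
    positivity
  refine (h (1 - p) (1 - q) (-1 + q + p) (0) (by linarith) (by linarith)
    (by linarith) (by linarith)).trans_eq ?_
  simp only [Nn, Np, Nq, Lq, wn]
  ring

theorem ineq_oH2 {p q : ℝ} (hp : p ≤ 1) (hq : q ≤ 1) (hs : 1 ≤ p + q) :
    0 ≤ ((1 - q) * Nq p q + (1 + p) ^ 2 - Nn p q) := by
  have h : ∀ u v z l : ℝ, 0 ≤ u → 0 ≤ v → 0 ≤ z → 0 ≤ l → 0 ≤
      139 / 50 * z ^ 7 + 443 / 20 * v * z ^ 6 + 14613 / 200 * v ^ 2 * z ^ 5 + 5047 / 40 * v ^ 3 * z ^ 4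
      + 269 / 2 * v ^ 4 * z ^ 3 + 4497 / 50 * v ^ 5 * z ^ 2 + 848 / 25 * v ^ 6 * z + 6 * v ^ 7 + 1201 / 80 * u * z ^ 6
      + 19337 / 200 * u * v * z ^ 5 + 4331 / 16 * u * v ^ 2 * z ^ 4 + 36071 / 100 * u * v ^ 3 * z ^ 3
      + 13619 / 50 * u * v ^ 4 * z ^ 2 + 583 / 5 * u * v ^ 5 * z + 516 / 25 * u * v ^ 6 + 12899 / 400 * u ^ 2 * z ^ 5
      + 65831 / 400 * u ^ 2 * v * z ^ 4 + 18543 / 50 * u ^ 2 * v ^ 2 * z ^ 3 + 33647 / 100 * u ^ 2 * v ^ 3 * z ^ 2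
      + 7291 / 50 * u ^ 2 * v ^ 4 * z + 1287 / 50 * u ^ 2 * v ^ 5 + 7271 / 200 * u ^ 3 * z ^ 4 + 3738 / 25 * u ^ 3 * v * z ^ 3
      + 13317 / 50 * u ^ 3 * v ^ 2 * z ^ 2 + 7691 / 50 * u ^ 3 * v ^ 3 * z + 3657 / 100 * u ^ 3 * v ^ 4
      + 2283 / 100 * u ^ 4 * z ^ 3 + 1433 / 20 * u ^ 4 * v * z ^ 2 + 8807 / 100 * u ^ 4 * v ^ 2 * z
      + 1901 / 100 * u ^ 4 * v ^ 3 + 749 / 100 * u ^ 5 * z ^ 2 + 157 / 10 * u ^ 5 * v * z + 499 / 50 * u ^ 5 * v ^ 2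
      + u ^ 6 * z + 26 / 25 * u ^ 6 * v := by
    intro u v z l _ _ _ _
    positivity
  refine (h (1 - p) (1 - q) (-1 + q + p) (0) (by linarith) (by linarith)
    (by linarith) (by linarith)).trans_eq ?_
  simp only [Nn, Np, Nq, Lq, wn]
  ring

theorem ineq_oL {p q : ℝ} (hp : p ≤ 1) (hq : q ≤ 1) (hs : 1 ≤ p + q) :
    0 ≤ Lq p q := by
  have h : ∀ u v z l : ℝ, 0 ≤ u → 0 ≤ v → 0 ≤ z → 0 ≤ l → 0 ≤
      3 / 2 * z ^ 2 + v * z + v ^ 2 + 3 * u * z + 46 / 25 * u * v + 27 / 25 * u ^ 2 := by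
    intro u v z l _ _ _ _
    positivity
  refine (h (1 - p) (1 - q) (-1 + q + p) (0) (by linarith) (by linarith)
    (by linarith) (by linarith)).trans_eq ?_
  simp only [Nn, Np, Nq, Lq, wn]
  ring

theorem ineq_a0 {p q : ℝ} (hp : p ≤ 1) (hq : q ≤ 1) (hs : 1 ≤ p + q) :
    0 ≤ Nn p q := by
  have h : ∀ u v z l : ℝ, 0 ≤ u → 0 ≤ v → 0 ≤ z → 0 ≤ l → 0 ≤
      61 / 50 * z ^ 7 + 1439 / 200 * v * z ^ 6 + 3607 / 200 * v ^ 2 * z ^ 5 + 26 * v ^ 3 * z ^ 4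
      + 219 / 10 * v ^ 4 * z ^ 3 + 249 / 25 * v ^ 5 * z ^ 2 + 2 * v ^ 6 * z + 719 / 80 * u * z ^ 6
      + 2531 / 50 * u * v * z ^ 5 + 9131 / 80 * u * v ^ 2 * z ^ 4 + 3599 / 25 * u * v ^ 3 * z ^ 3
      + 1039 / 10 * u * v ^ 4 * z ^ 2 + 196 / 5 * u * v ^ 5 * z + 152 / 25 * u * v ^ 6 + 11501 / 400 * u ^ 2 * z ^ 5
      + 56837 / 400 * u ^ 2 * v * z ^ 4 + 26917 / 100 * u ^ 2 * v ^ 2 * z ^ 3 + 13513 / 50 * u ^ 2 * v ^ 3 * z ^ 2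
      + 6997 / 50 * u ^ 2 * v ^ 4 * z + 146 / 5 * u ^ 2 * v ^ 5 + 9729 / 200 * u ^ 3 * z ^ 4 + 19253 / 100 * u ^ 3 * v * z ^ 3
      + 1095 / 4 * u ^ 3 * v ^ 2 * z ^ 2 + 9171 / 50 * u ^ 3 * v ^ 3 * z + 4637 / 100 * u ^ 3 * v ^ 4
      + 4717 / 100 * u ^ 4 * z ^ 3 + 13993 / 100 * u ^ 4 * v * z ^ 2 + 13393 / 100 * u ^ 4 * v ^ 2 * z
      + 4623 / 100 * u ^ 4 * v ^ 3 + 2651 / 100 * u ^ 5 * z ^ 2 + 2633 / 50 * u ^ 5 * v * z + 639 / 25 * u ^ 5 * v ^ 2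
      + 8 * u ^ 6 * z + 399 / 50 * u ^ 6 * v + u ^ 7 := by
    intro u v z l _ _ _ _
    positivity
  refine (h (1 - p) (1 - q) (-1 + q + p) (0) (by linarith) (by linarith)
    (by linarith) (by linarith)).trans_eq ?_
  simp only [Nn, Np, Nq, Lq, wn]
  ring

theorem ineq_a1 {p q : ℝ} (hp : p ≤ 1) (hq : q ≤ 1) (hs : 1 ≤ p + q) :
    0 ≤ ((1 + p) ^ 2 - Nn p q) := by
  have h : ∀ u v z l : ℝ, 0 ≤ u → 0 ≤ v → 0 ≤ z → 0 ≤ l → 0 ≤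
      139 / 50 * z ^ 7 + 4161 / 200 * v * z ^ 6 + 13193 / 200 * v ^ 2 * z ^ 5 + 114 * v ^ 3 * z ^ 4
      + 1181 / 10 * v ^ 4 * z ^ 3 + 1851 / 25 * v ^ 5 * z ^ 2 + 26 * v ^ 6 * z + 4 * v ^ 7 + 1201 / 80 * u * z ^ 6
      + 4669 / 50 * u * v * z ^ 5 + 19669 / 80 * u * v ^ 2 * z ^ 4 + 8401 / 25 * u * v ^ 3 * z ^ 3
      + 2561 / 10 * u * v ^ 4 * z ^ 2 + 524 / 5 * u * v ^ 5 * z + 448 / 25 * u * v ^ 6 + 12899 / 400 * u ^ 2 * z ^ 5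
      + 65163 / 400 * u ^ 2 * v * z ^ 4 + 34083 / 100 * u ^ 2 * v ^ 2 * z ^ 3 + 16987 / 50 * u ^ 2 * v ^ 3 * z ^ 2
      + 8253 / 50 * u ^ 2 * v ^ 4 * z + 159 / 5 * u ^ 2 * v ^ 5 + 7271 / 200 * u ^ 3 * z ^ 4 + 14747 / 100 * u ^ 3 * v * z ^ 3
      + 945 / 4 * u ^ 3 * v ^ 2 * z ^ 2 + 7829 / 50 * u ^ 3 * v ^ 3 * z + 3863 / 100 * u ^ 3 * v ^ 4
      + 2283 / 100 * u ^ 4 * z ^ 3 + 7007 / 100 * u ^ 4 * v * z ^ 2 + 7607 / 100 * u ^ 4 * v ^ 2 * z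
      + 2377 / 100 * u ^ 4 * v ^ 3 + 749 / 100 * u ^ 5 * z ^ 2 + 767 / 50 * u ^ 5 * v * z + 211 / 25 * u ^ 5 * v ^ 2
      + u ^ 6 * z + 51 / 50 * u ^ 6 * v := by
    intro u v z l _ _ _ _
    positivity
  refine (h (1 - p) (1 - q) (-1 + q + p) (0) (by linarith) (by linarith)
    (by linarith) (by linarith)).trans_eq ?_
  simp only [Nn, Np, Nq, Lq, wn]
  ring

theorem poly7 (c0 c1 c2 c3 c4 c5 c6 c7 x : ℝ) : HasDerivAt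
    (fun x => c0 + c1 * x + c2 * x ^ 2 + c3 * x ^ 3 + c4 * x ^ 4 + c5 * x ^ 5 + c6 * x ^ 6 +
      c7 * x ^ 7) (c1 + 2 * c2 * x + 3 * c3 * x ^ 2 + 4 * c4 * x ^ 3 + 5 * c5 * x ^ 4 +
      6 * c6 * x ^ 5 + 7 * c7 * x ^ 6) x := by
  have h := fun n : ℕ => hasDerivAt_pow n x
  exact ((((((((hasDerivAt_const x c0).add ((hasDerivAt_id x).const_mul c1)).add
    ((h 2).const_mul c2)).add ((h 3).const_mul c3)).add ((h 4).const_mul c4)).add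
    ((h 5).const_mul c5)).add ((h 6).const_mul c6)).add ((h 7).const_mul c7)).congr_deriv
    (by norm_num; ring)

theorem deriv_Nq (p q : ℝ) : HasDerivAt (fun x => Nn p x) (Nq p q) q := by
  have h := poly7
    (32 / 25 + 153 / 400 * p - 61 / 400 * p ^ 2 + 51 / 200 * p ^ 3 - 503 / 200 * p ^ 4 - 51 / 80 * p ^ 5
    + 111 / 80 * p ^ 6)
    (9 / 25 - 41 / 40 * p - 31 / 50 * p ^ 2 + 11 / 4 * p ^ 3 + 59 / 25 * p ^ 4 - 29 / 40 * p ^ 5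
    - 11 / 10 * p ^ 6)
    (-(349 / 200) + 623 / 200 * p - 119 / 200 * p ^ 2 - 1047 / 200 * p ^ 3 + 33 / 25 * p ^ 4 + 11 / 10 * p ^ 5)
    (7 / 25 + 11 / 20 * p + 81 / 50 * p ^ 2 + 3 / 4 * p ^ 3 - 11 / 10 * p ^ 4)
    (57 / 50 - 1399 / 400 * p - 297 / 400 * p ^ 2 + 11 / 10 * p ^ 3)
    (9 / 25 + 59 / 40 * p)
    (-(27 / 40))
    (0)
    q
  refine (h.congr_deriv (by simp only [Nq]; ring)).congr_of_eventuallyEq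
    (Filter.Eventually.of_forall fun x => ?_)
  simp only [Nn]
  ring

theorem deriv_Np (p q : ℝ) : HasDerivAt (fun x => Nn x q) (Np p q) p := by
  have h := poly7
    (32 / 25 + 9 / 25 * q - 349 / 200 * q ^ 2 + 7 / 25 * q ^ 3 + 57 / 50 * q ^ 4 + 9 / 25 * q ^ 5
    - 27 / 40 * q ^ 6)
    (153 / 400 - 41 / 40 * q + 623 / 200 * q ^ 2 + 11 / 20 * q ^ 3 - 1399 / 400 * q ^ 4 + 59 / 40 * q ^ 5)
    (-(61 / 400) - 31 / 50 * q - 119 / 200 * q ^ 2 + 81 / 50 * q ^ 3 - 297 / 400 * q ^ 4)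
    (51 / 200 + 11 / 4 * q - 1047 / 200 * q ^ 2 + 3 / 4 * q ^ 3 + 11 / 10 * q ^ 4)
    (-(503 / 200) + 59 / 25 * q + 33 / 25 * q ^ 2 - 11 / 10 * q ^ 3)
    (-(51 / 80) - 29 / 40 * q + 11 / 10 * q ^ 2)
    (111 / 80 - 11 / 10 * q)
    (0)
    p
  refine (h.congr_deriv (by simp only [Np]; ring)).congr_of_eventuallyEq
    (Filter.Eventually.of_forall fun x => ?_)
  simp only [Nn]
  ring

theorem deriv_Fq (p q : ℝ) : HasDerivAt (fun x => Fp p x) (Fq p q) q := by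
  have h := poly7
    (1 / 2 * p - 149 / 400 * p ^ 2 - p ^ 3 + 149 / 200 * p ^ 4 + 1 / 2 * p ^ 5 - 149 / 400 * p ^ 6)
    (-(1 / 2) + 1 / 2 * p + 51 / 40 * p ^ 2 - 21 / 20 * p ^ 4 + 11 / 40 * p ^ 6)
    (149 / 400 - 51 / 40 * p + 31 / 20 * p ^ 3 - 149 / 400 * p ^ 4 - 11 / 40 * p ^ 5)
    (1 - 31 / 20 * p ^ 2 + 11 / 20 * p ^ 4)
    (-(149 / 200) + 21 / 20 * p + 149 / 400 * p ^ 2 - 11 / 20 * p ^ 3)
    (-(1 / 2) + 11 / 40 * p ^ 2)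
    (149 / 400 - 11 / 40 * p)
    (0)
    q
  refine (h.congr_deriv (by simp only [Fq]; ring)).congr_of_eventuallyEq
    (Filter.Eventually.of_forall fun x => ?_)
  simp only [Fp]
  ring

theorem deriv_Lq (p q : ℝ) : HasDerivAt (fun x => La p x) (Lq p q) q := by
  have h := poly7
    (-(71 / 50 * p) + 23 / 25 * p ^ 2 - 1 / 2 * p ^ 3)
    (71 / 50 - 21 / 50 * p ^ 2)
    (-(23 / 25) + 21 / 50 * p)
    (1 / 2)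
    (0)
    (0)
    (0)
    (0)
    q
  refine (h.congr_deriv (by simp only [Lq]; ring)).congr_of_eventuallyEq
    (Filter.Eventually.of_forall fun x => ?_)
  simp only [La]
  ring

end Pool.Agent.P.MP_8de615_co
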