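import Mathlib
import Pool.Agent.K.MP_8de615_co.C1
import Pool.Agent.P.MP_8de615_co.Defs

-- part Pool.Agent.P.MP_8de615_co.Core
section

/-! The upper bound for one word satisfying the ballot condition. -/

set_option autoImplicit false

namespace Pool.Agent.P.MP_8de615_co

open Real Finset

/-- The scaled potential. -/
noncomputable def Psi (L D p q a b : ℝ) : ℝ :=
  L ^ 2 * Phi (D / L ^ 2) (p / L) (q / L) (a / L ^ 2) (b / L ^ 2)

theorem Psi_swap {L : ℝ} (hL : L ≠ 0) (D p q a b : ℝ) :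
    Psi L D q p b a = π / 4 * L ^ 2 + p * q - Psi L D p q a b := by
  simp only [Psi]
  rw [Phi_swap]
  field_simp

theorem stepL : ∃ C : ℝ, 0 ≤ C ∧ ∀ L D p q h a a' b k m : ℝ, 1 ≤ L → p ≤ L → q + h ≤ L →
    L ≤ p + q → 0 ≤ h → h ≤ 1 → 0 ≤ D → D ≤ 4 * L ^ 2 → 0 ≤ k → k ≤ 2 * L → 0 ≤ m → m ≤ 2 * L →
    0 ≤ a' → a' ≤ 4 * L ^ 2 → 0 ≤ b → b ≤ 4 * L ^ 2 → a' - a = h * (m - k) →
    a' ≤ (q + h) * m + (L - (q + h)) * k → (L ^ 2 - p ^ 2 - (q + h) ^ 2) / 2 - D ≤ a' + b →
    Psi L D p (q + h) a' b - Psi L D p q a b ≤ h * (k + p) + C := by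
  obtain ⟨C, C0, hC⟩ := step
  refine ⟨C, C0, ?_⟩
  intro L D p q h a a' b k m hL hp hq hs h0 h1 D0 D4 k0 k2 m0 m2 a0 a4 b0 b4 ha hloc hcon
  have L0 : 0 < L := by linarith
  have L2 : 0 < L ^ 2 := by positivity
  have t1 : (p / L, q / L) ∈ Tri := by
    refine ⟨(div_le_one L0).2 hp, (div_le_one L0).2 (by linarith), ?_⟩
    dsimp only
    rw [← add_div, one_le_div L0]
    exact hs
  have t2 : (p / L, q / L + h / L) ∈ Tri := by
    refine ⟨(div_le_one L0).2 hp, ?_, ?_⟩
    · dsimp only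
      rw [← add_div, div_le_one L0]
      exact hq
    · dsimp only
      rw [← add_div, ← add_div, one_le_div L0]
      linarith
  have := hC (D / L ^ 2) (p / L) (q / L) (h / L) (a / L ^ 2) (a' / L ^ 2) (b / L ^ 2) (k / L)
    (m / L) t1 t2 (by positivity) (by positivity) ((div_le_iff₀ L2).2 D4) (by positivity)
    ((div_le_iff₀ L0).2 k2) (by positivity) ((div_le_iff₀ L0).2 m2) (by positivity)
    ((div_le_iff₀ L2).2 a4) (by positivity) ((div_le_iff₀ L2).2 b4)
    (by rw [← sub_div, ha]; field_simp)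
    (by
      refine (div_le_div_of_nonneg_right hloc L2.le).trans_eq ?_
      field_simp)
    (by
      have h2 := div_le_div_of_nonneg_right hcon L2.le
      have h3 : 0 ≤ h / L := by positivity
      have e : ((L ^ 2 - p ^ 2 - (q + h) ^ 2) / 2 - D) / L ^ 2 =
          (1 - (p / L) ^ 2 - (q / L + h / L) ^ 2) / 2 - D / L ^ 2 := by field_simp
      rw [e, add_div] at h2
      linarith)
  have h2 := mul_le_mul_of_nonneg_left this L2.le
  have e : L ^ 2 * (h / L * (k / L + p / L) + C * (h / L) ^ 2) = h * (k + p) + C * h ^ 2 := by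
    field_simp
  rw [e, mul_sub, ← add_div] at h2
  have h3 : C * h ^ 2 ≤ C := by nlinarith [mul_nonneg C0 h0]
  simp only [Psi]
  linarith

/-- Indicator. -/
def J (P : Prop) [Decidable P] : ℝ := if P then 1 else 0

theorem J_nonneg (P : Prop) [Decidable P] : 0 ≤ J P := by
  unfold J
  split_ifs <;> norm_num

theorem J_le (P : Prop) [Decidable P] : J P ≤ 1 := by
  unfold J
  split_ifs <;> norm_num

theorem J_pos {P : Prop} [Decidable P] (h : P) : J P = 1 := if_pos h

theorem J_neg {P : Prop} [Decidable P] (h : ¬P) : J P = 0 := if_neg h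

theorem count {n : ℕ} {Y : ℕ → ℕ} (hi : Set.InjOn Y (range n)) (hY : ∀ i < n, Y i < n)
    (f : ℕ → ℝ) : ∑ j ∈ range n, f (Y j) = ∑ v ∈ range n, f v := by
  have : (range n).image Y = range n := by
    refine eq_of_subset_of_card_le (fun v hv => ?_) (card_image_of_injOn hi).ge
    obtain ⟨i, hi, rfl⟩ := mem_image.1 hv
    exact mem_range.2 (hY i (mem_range.1 hi))
  rw [← sum_image hi, this]

theorem sum_J_lt {n c : ℕ} (hc : c ≤ n) : ∑ v ∈ range n, J (v < c) = c := by
  rw [← sum_range_add_sum_Ico _ hc, sum_congr rfl fun v hv => J_pos (mem_range.1 hv),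
    sum_congr rfl fun v hv => J_neg (not_lt.2 (mem_Ico.1 hv).1)]
  simp

theorem count_lt {n : ℕ} {Y : ℕ → ℕ} (hi : Set.InjOn Y (range n)) (hY : ∀ i < n, Y i < n)
    {c : ℕ} (hc : c ≤ n) : ∑ j ∈ range n, J (Y j < c) = c := by
  rw [count hi hY fun v => J (v < c), sum_J_lt hc]

theorem split3 {n t : ℕ} (ht : t < n) (f : ℕ → ℝ) :
    ∑ j ∈ range n, f j = ∑ j ∈ range t, f j + f t + ∑ j ∈ Ico (t + 1) n, f j := by
  rw [← sum_range_add_sum_Ico _ (Nat.succ_le_of_lt ht), sum_range_succ]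

theorem cross {n t : ℕ} (ht : t < n) (R : ℕ → ℕ → ℝ) :
    ∑ i ∈ range (t + 1), ∑ j ∈ Ico (t + 1) n, R i j = ∑ i ∈ range t, ∑ j ∈ Ico t n, R i j -
      ∑ i ∈ range t, R i t + ∑ j ∈ Ico (t + 1) n, R t j := by
  rw [sum_range_succ, ← sum_sub_distrib]
  congr 1
  refine sum_congr rfl fun i _ => ?_
  rw [sum_eq_sum_Ico_succ_bot ht]
  ring

theorem sum_J_le {n : ℕ} {s : Finset ℕ} (hs : s ⊆ range n) (P : ℕ → Prop) [DecidablePred P] :
    ∑ j ∈ s, J (P j) ≤ n := by
  calc _ ≤ ∑ _j ∈ s, (1 : ℝ) := sum_le_sum fun j _ => J_le _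
    _ = s.card := by simp
    _ ≤ n := by exact_mod_cast (card_le_card hs).trans_eq (card_range n)

theorem Ico_sub (n t : ℕ) : Ico t n ⊆ range n := fun _ h => mem_range.2 (mem_Ico.1 h).2

theorem cross_le {n t : ℕ} (ht : t ≤ n) (P : ℕ → ℕ → Prop) [∀ i j, Decidable (P i j)] :
    ∑ i ∈ range t, ∑ j ∈ Ico t n, J (P i j) ≤ (n : ℝ) ^ 2 := by
  calc _ ≤ ∑ _i ∈ range t, (n : ℝ) := sum_le_sum fun i _ => sum_J_le (Ico_sub n t) _
    _ = t * n := by simp
    _ ≤ n * n := by gcongr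
    _ = _ := by ring

/-- Small values used. -/
def qq (A : ℕ) (Y : ℕ → ℕ) (t : ℕ) : ℝ := ∑ i ∈ range t, J (Y i < A)

/-- Large values not yet used. -/
def pp (n A : ℕ) (Y : ℕ → ℕ) (t : ℕ) : ℝ := ∑ j ∈ Ico t n, J (A ≤ Y j)

/-- Crossing increasing pairs of small values. -/
def aa (n A : ℕ) (Y : ℕ → ℕ) (t : ℕ) : ℝ :=
  ∑ i ∈ range t, ∑ j ∈ Ico t n, J (Y i < Y j ∧ Y j < A)

/-- Crossing increasing pairs of large values. -/
def bb (n A : ℕ) (Y : ℕ → ℕ) (t : ℕ) : ℝ :=
  ∑ i ∈ range t, ∑ j ∈ Ico t n, J (A ≤ Y i ∧ Y i < Y j)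

/-- Later larger values. -/
def ll (n : ℕ) (Y : ℕ → ℕ) (t : ℕ) : ℝ := ∑ j ∈ Ico (t + 1) n, J (Y t < Y j)

section
variable {n A : ℕ} {Y : ℕ → ℕ} (hi : Set.InjOn Y (range n)) (hY : ∀ i < n, Y i < n) (hA : A ≤ n)
include hi hY hA

theorem qq_rest {t : ℕ} (ht : t ≤ n) : ∑ j ∈ Ico t n, J (Y j < A) = A - qq A Y t := by
  rw [← count_lt hi hY hA, ← sum_range_add_sum_Ico _ ht, qq]
  ring

theorem pp_rest {t : ℕ} (ht : t ≤ n) :
    ∑ i ∈ range t, J (A ≤ Y i) = n - A - pp n A Y t := by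
  have : ∑ i ∈ range n, J (A ≤ Y i) = ∑ i ∈ range n, (1 - J (Y i < A)) :=
    sum_congr rfl fun i _ => by
      unfold J
      split_ifs <;> first | omega | norm_num
  rw [sum_sub_distrib, count_lt hi hY hA, ← sum_range_add_sum_Ico _ ht] at this
  simp only [sum_const, card_range, nsmul_eq_mul, mul_one] at this
  rw [pp]
  linarith

theorem nstep {t : ℕ} (ht : t < n) (h : Y t < A) : ∃ k m : ℝ, 0 ≤ k ∧ k ≤ n ∧ 0 ≤ m ∧ m ≤ n ∧
    qq A Y (t + 1) = qq A Y t + 1 ∧ pp n A Y (t + 1) = pp n A Y t ∧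
    aa n A Y (t + 1) - aa n A Y t = m - k ∧ bb n A Y (t + 1) = bb n A Y t ∧
    aa n A Y (t + 1) ≤ qq A Y (t + 1) * m + (A - qq A Y (t + 1)) * k ∧
    m - k = A - qq A Y t - 1 - Y t ∧ ll n Y t = m + pp n A Y t := by
  have hq : qq A Y (t + 1) = qq A Y t + 1 := by rw [qq, sum_range_succ, J_pos h, qq]
  have hp : pp n A Y (t + 1) = pp n A Y t := by
    rw [pp, pp, sum_eq_sum_Ico_succ_bot ht, J_neg (not_le.2 h), zero_add]
  refine ⟨∑ i ∈ range t, J (Y i < Y t), ∑ j ∈ Ico (t + 1) n, J (Y t < Y j ∧ Y j < A),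
    sum_nonneg fun _ _ => J_nonneg _, sum_J_le (range_subset_range.2 ht.le) _,
    sum_nonneg fun _ _ => J_nonneg _, sum_J_le (Ico_sub _ _) _, hq, hp, ?_, ?_, ?_, ?_, ?_⟩
  · rw [aa, cross ht, aa]
    have : ∑ i ∈ range t, J (Y i < Y t ∧ Y t < A) = ∑ i ∈ range t, J (Y i < Y t) :=
      sum_congr rfl fun i _ => by simp only [J, h, and_true]
    rw [this]
    ring
  · rw [bb, cross ht, bb, sum_eq_zero (s := range t) fun i _ => J_neg (by omega),
      sum_eq_zero (s := Ico (t + 1) n) fun i _ => J_neg (by omega)]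
    ring
  · have : ∑ i ∈ range t, J (Y i < Y t) = ∑ i ∈ range (t + 1), J (Y i < Y t) := by
      rw [sum_range_succ, J_neg (lt_irrefl _), add_zero]
    rw [← qq_rest hi hY hA ht, this, mul_comm (∑ j ∈ Ico (t + 1) n, J (Y j < A)), qq,
      sum_mul_sum, sum_mul_sum, ← sum_add_distrib]
    refine sum_le_sum fun i _ => ?_
    rw [← sum_add_distrib]
    refine sum_le_sum fun j _ => ?_
    unfold J
    split_ifs <;> first | omega | norm_num
  · have h1 := count_lt hi hY (hY t ht).le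
    rw [split3 ht, J_neg (lt_irrefl _)] at h1
    have h2 : ∑ j ∈ Ico (t + 1) n, J (Y j < Y t) + ∑ j ∈ Ico (t + 1) n, J (Y t < Y j ∧ Y j < A) =
        ∑ j ∈ Ico (t + 1) n, J (Y j < A) := by
      rw [← sum_add_distrib]
      refine sum_congr rfl fun j hj => ?_
      have : Y j ≠ Y t := fun e => by
        have := hi (mem_coe.2 (Ico_sub _ _ hj)) (mem_coe.2 (mem_range.2 ht)) e
        have := (mem_Ico.1 hj).1
        omega
      unfold J
      split_ifs <;> first | omega | norm_num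
    rw [qq_rest hi hY hA ht, hq] at h2
    linarith
  · rw [← hp, ll, pp, ← sum_add_distrib]
    refine sum_congr rfl fun j _ => ?_
    unfold J
    split_ifs <;> first | omega | norm_num

theorem pstep {t : ℕ} (ht : t < n) (h : A ≤ Y t) : ∃ k m : ℝ, 0 ≤ k ∧ k ≤ n ∧ 0 ≤ m ∧ m ≤ n ∧
    qq A Y (t + 1) = qq A Y t ∧ pp n A Y t = pp n A Y (t + 1) + 1 ∧
    aa n A Y (t + 1) = aa n A Y t ∧ bb n A Y t - bb n A Y (t + 1) = m - k ∧
    bb n A Y t ≤ pp n A Y t * m + (n - A - pp n A Y t) * k ∧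
    k - m = A - 1 - Y t + pp n A Y t ∧ ll n Y t = k := by
  have hq : qq A Y (t + 1) = qq A Y t := by
    rw [qq, sum_range_succ, J_neg (not_lt.2 h), qq, add_zero]
  have hp : pp n A Y t = pp n A Y (t + 1) + 1 := by
    rw [pp, pp, sum_eq_sum_Ico_succ_bot ht, J_pos h, add_comm]
  refine ⟨ll n Y t, ∑ i ∈ range t, J (A ≤ Y i ∧ Y i < Y t),
    sum_nonneg fun _ _ => J_nonneg _, sum_J_le (Ico_sub _ _) _,
    sum_nonneg fun _ _ => J_nonneg _, sum_J_le (range_subset_range.2 ht.le) _, hq, hp,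
    ?_, ?_, ?_, ?_, rfl⟩
  · rw [aa, cross ht, aa, sum_eq_zero (s := range t) fun i _ => J_neg (by omega),
      sum_eq_zero (s := Ico (t + 1) n) fun i _ => J_neg (by omega)]
    ring
  · rw [bb, bb, cross ht, ll]
    have : ∑ j ∈ Ico (t + 1) n, J (A ≤ Y t ∧ Y t < Y j) = ∑ j ∈ Ico (t + 1) n, J (Y t < Y j) :=
      sum_congr rfl fun i _ => by simp only [J, h, true_and]
    rw [this]
    ring
  · have : ll n Y t = ∑ j ∈ Ico t n, J (Y t < Y j) := by
      rw [ll, sum_eq_sum_Ico_succ_bot ht, J_neg (lt_irrefl _), zero_add]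
    rw [← pp_rest hi hY hA ht.le, this, mul_comm (pp n A Y t), pp,
      sum_mul_sum, sum_mul_sum, ← sum_add_distrib]
    refine sum_le_sum fun i _ => ?_
    rw [← sum_add_distrib]
    refine sum_le_sum fun j _ => ?_
    unfold J
    split_ifs <;> first | omega | norm_num
  · have h1 := count_lt hi hY (hY t ht).le
    rw [split3 ht, J_neg (lt_irrefl _)] at h1
    have h2 : ∑ j ∈ Ico (t + 1) n, J (Y j < Y t) + ll n Y t = ∑ _j ∈ Ico (t + 1) n, (1 : ℝ) := by
      rw [ll, ← sum_add_distrib]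
      refine sum_congr rfl fun j hj => ?_
      have : Y j ≠ Y t := fun e => by
        have := hi (mem_coe.2 (Ico_sub _ _ hj)) (mem_coe.2 (mem_range.2 ht)) e
        have := (mem_Ico.1 hj).1
        omega
      unfold J
      split_ifs <;> first | omega | norm_num
    have h3 : ∑ i ∈ range t, J (Y i < Y t) + ∑ i ∈ range t, J (A ≤ Y i) =
        ∑ i ∈ range t, J (A ≤ Y i ∧ Y i < Y t) + ∑ _i ∈ range t, (1 : ℝ) := by
      rw [← sum_add_distrib, ← sum_add_distrib]
      refine sum_congr rfl fun i _ => ?_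
      unfold J
      split_ifs <;> first | omega | norm_num
    rw [pp_rest hi hY hA ht.le] at h3
    simp only [sum_const, card_range, nsmul_eq_mul, mul_one, Nat.card_Ico] at h2 h3
    rw [Nat.cast_sub ht] at h2
    push_cast at h2
    linarith

end

theorem core : ∃ C : ℝ, 0 ≤ C ∧ ∀ (n A : ℕ) (Y : ℕ → ℕ) (D : ℝ), Set.InjOn Y (range n) →
    (∀ i < n, Y i < n) → 1 ≤ n → 2 * A ≤ n → n ≤ 2 * A + 1 →
    (∀ t ≤ n, (A : ℝ) ≤ pp n A Y t + qq A Y t) → 0 ≤ D → D ≤ (n : ℝ) ^ 2 →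
    (∀ t ≤ n, -(2 * D) ≤ ∑ i ∈ range t, ((n : ℝ) - 1 - 2 * Y i)) →
    π / 16 * (n : ℝ) ^ 2 - 2 * D - C * n ≤ ∑ t ∈ range n, ll n Y t := by
  obtain ⟨C, C0, hC⟩ := stepL
  refine ⟨2 * C + 1, by positivity, ?_⟩
  intro n A Y D hi hY n1 A1 A2 hb D0 D2 hS
  have hA : A ≤ n := by omega
  have n1' : (1 : ℝ) ≤ n := by exact_mod_cast n1
  have A1' : 2 * (A : ℝ) ≤ n := by exact_mod_cast A1
  have A2' : (n : ℝ) ≤ 2 * A + 1 := by exact_mod_cast A2
  have L1 : (1 : ℝ) ≤ n - A := by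
    have : A + 1 ≤ n := by omega
    have : (A : ℝ) + 1 ≤ n := by exact_mod_cast this
    linarith
  set L : ℝ := n - A with hL
  set e : ℝ := n - 2 * A with he
  have nL : (n : ℝ) ≤ 2 * L := by linarith
  have nL2 : (n : ℝ) ^ 2 ≤ 4 * L ^ 2 := by nlinarith
  have pL : ∀ t ≤ n, pp n A Y t ≤ L := fun t ht => by
    have := pp_rest hi hY hA ht
    have h2 : 0 ≤ ∑ i ∈ range t, J (A ≤ Y i) := sum_nonneg fun _ _ => J_nonneg _
    linarith
  have qA : ∀ t ≤ n, qq A Y t ≤ A := fun t ht => by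
    have := qq_rest hi hY hA ht
    have h2 : 0 ≤ ∑ j ∈ Ico t n, J (Y j < A) := sum_nonneg fun _ _ => J_nonneg _
    linarith
  have p0 : pp n A Y 0 = L := by
    have := pp_rest hi hY hA (Nat.zero_le n)
    rw [sum_range_zero] at this
    linarith
  have q0 : qq A Y 0 = 0 := sum_range_zero _
  have a0 : aa n A Y 0 = 0 := sum_range_zero _
  have b0 : bb n A Y 0 = 0 := sum_range_zero _
  have an : ∀ t, 0 ≤ aa n A Y t := fun t => sum_nonneg fun _ _ => sum_nonneg fun _ _ => J_nonneg _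
  have bn : ∀ t, 0 ≤ bb n A Y t := fun t => sum_nonneg fun _ _ => sum_nonneg fun _ _ => J_nonneg _
  have aL : ∀ t ≤ n, aa n A Y t ≤ 4 * L ^ 2 := fun t ht => (cross_le ht _).trans nL2
  have bL : ∀ t ≤ n, bb n A Y t ≤ 4 * L ^ 2 := fun t ht => (cross_le ht _).trans nL2
  have inv : ∀ t ≤ n, 2 * (aa n A Y t + bb n A Y t) = ∑ i ∈ range t, ((n : ℝ) - 1 - 2 * Y i) +
      L ^ 2 - pp n A Y t ^ 2 - (qq A Y t + e) ^ 2 - e * (L - (qq A Y t + e) - pp n A Y t) := by
    intro t ht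
    induction t with
    | zero =>
      rw [a0, b0, p0, q0, sum_range_zero]
      ring
    | succ t ih =>
      have ih := ih (by omega)
      rw [sum_range_succ]
      rcases lt_or_ge (Y t) A with h | h
      · obtain ⟨k, m, -, -, -, -, h1, h2, h3, h4, -, h6, -⟩ := nstep hi hY hA ht h
        rw [h1, h2, h4]
        linear_combination ih + 2 * h3 + 2 * h6 - he
      · obtain ⟨k, m, -, -, -, -, h1, h2, h3, h4, -, h6, -⟩ := pstep hi hY hA ht h
        rw [h2] at ih h6
        rw [h1, h3]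
        linear_combination ih - 2 * h4 + 2 * h6 + he
  have con : ∀ t ≤ n, (L ^ 2 - pp n A Y t ^ 2 - (qq A Y t + e) ^ 2) / 2 - D ≤
      aa n A Y t + bb n A Y t := fun t ht => by
    have h1 := inv t ht
    have h2 := hS t ht
    have h3 := hb t ht
    have h4 : e * (L - (qq A Y t + e) - pp n A Y t) ≤ 0 :=
      mul_nonpos_of_nonneg_of_nonpos (by linarith) (by linarith)
    linarith
  have main : ∀ t ≤ n, Psi L D (pp n A Y t) (qq A Y t + e) (aa n A Y t) (bb n A Y t) +
      aa n A Y t ≤ D + L + C + ∑ i ∈ range t, (ll n Y i + C) := by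
    intro t ht
    induction t with
    | zero =>
      have := hC L D L 0 e 0 0 0 0 0 L1 le_rfl (by linarith) (by linarith) (by linarith)
        (by linarith) D0 (D2.trans nL2) le_rfl (by linarith) le_rfl (by linarith) le_rfl
        (by positivity) le_rfl (by positivity) (by ring) (by simp) (by nlinarith [sq_nonneg e])
      have h2 : Psi L D L 0 0 0 = D := by
        have : L ≠ 0 := by linarith
        simp only [Psi, div_self this, zero_div, Phi_start]
        field_simp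
      rw [a0, b0, p0, q0, sum_range_zero]
      have h3 : e * L ≤ 1 * L := mul_le_mul_of_nonneg_right (by linarith) (by linarith)
      linarith
    | succ t ih =>
      have ih := ih (by omega)
      rw [sum_range_succ]
      have c0 := con t (by omega)
      have c1 := con (t + 1) ht
      rcases lt_or_ge (Y t) A with h | h
      · obtain ⟨k, m, k0, k1, m0, m1, h1, h2, h3, h4, h5, -, h7⟩ := nstep hi hY hA ht h
        have := qA (t + 1) ht
        have h8 := hb t (by omega)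
        rw [h1] at h5 this
        rw [h1, h2, h4, add_right_comm] at c1 ⊢
        have := hC L D (pp n A Y t) (qq A Y t + e) 1 (aa n A Y t) (aa n A Y (t + 1)) (bb n A Y t)
          k m L1 (pL t (by omega)) (by linarith) (by linarith) zero_le_one le_rfl D0
          (D2.trans nL2) k0 (k1.trans nL) m0 (m1.trans nL) (an _) (aL _ ht) (bn _)
          (bL t (by omega)) (by linarith)
          (by nlinarith [mul_nonneg (show 0 ≤ e by linarith) m0]) c1
        linarith
      · obtain ⟨k, m, k0, k1, m0, m1, h1, h2, h3, h4, h5, -, h7⟩ := pstep hi hY hA ht h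
        have h9 := pL t (by omega)
        have h8 := hb (t + 1) ht
        have h10 := qA t (by omega)
        rw [h1] at h8
        rw [h1, h3]
        rw [h2] at ih c0 h5 h9
        have := hC L D (qq A Y t + e) (pp n A Y (t + 1)) 1 (bb n A Y (t + 1)) (bb n A Y t)
          (aa n A Y t) k m L1 (by linarith) h9 (by linarith) zero_le_one le_rfl D0
          (D2.trans nL2) k0 (k1.trans nL) m0 (m1.trans nL) (bn _) (bL t (by omega)) (an _)
          (aL t (by omega)) (by linarith) h5 (by linarith)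
        rw [Psi_swap (by linarith), Psi_swap (L := L) (by linarith) D (pp n A Y (t + 1))] at this
        linarith
  have h1 := main n le_rfl
  have pn : pp n A Y n = 0 := by simp [pp]
  have qn : qq A Y n + e = L := by
    have := qq_rest hi hY hA (le_refl n)
    rw [Ico_self, sum_empty] at this
    linarith
  have an' : aa n A Y n = 0 := by simp [aa]
  have bn' : bb n A Y n = 0 := by simp [bb]
  have h2 : Psi L D 0 L 0 0 = π / 4 * L ^ 2 - D := by
    have : L ≠ 0 := by linarith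
    simp only [Psi, div_self this, zero_div, Phi_end]
    field_simp
  rw [pn, qn, an', bn', h2, sum_add_distrib] at h1
  simp only [sum_const, card_range, nsmul_eq_mul] at h1
  have h3 : π / 16 * (n : ℝ) ^ 2 ≤ π / 16 * (4 * L ^ 2) :=
    mul_le_mul_of_nonneg_left nL2 (by positivity)
  have h4 : (0 : ℝ) ≤ A := Nat.cast_nonneg A
  nlinarith

end Pool.Agent.P.MP_8de615_co
end

-- part Pool.Agent.P.MP_8de615_co.Lower
section

/-! Inversions of words, rotation, and the extremal word. -/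

set_option autoImplicit false

namespace Pool.Agent.P.MP_8de615_co

open Real Finset

/-- Number of inversions of the word `Y 0, ..., Y (n-1)`. -/
def W (n : ℕ) (Y : ℕ → ℕ) : ℝ := ∑ t ∈ range n, ∑ j ∈ Ico (t + 1) n, J (Y j < Y t)

theorem W_nonneg (n : ℕ) (Y : ℕ → ℕ) : 0 ≤ W n Y :=
  sum_nonneg fun _ _ => sum_nonneg fun _ _ => J_nonneg _

theorem W_le (n : ℕ) (Y : ℕ → ℕ) : W n Y ≤ (n : ℝ) ^ 2 := by
  calc _ ≤ ∑ _i ∈ range n, (n : ℝ) := sum_le_sum fun i _ => sum_J_le (Ico_sub n _) _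
    _ = _ := by simp [sq]

theorem W_add {n : ℕ} {Y : ℕ → ℕ} (hi : Set.InjOn Y (range n)) :
    W n Y + ∑ t ∈ range n, ll n Y t = n * (n - 1) / 2 := by
  have h1 : ∀ t ∈ range n, ∑ j ∈ Ico (t + 1) n, J (Y j < Y t) + ll n Y t = n - 1 - t := by
    intro t ht
    have : ∑ j ∈ Ico (t + 1) n, J (Y j < Y t) + ll n Y t = ∑ _j ∈ Ico (t + 1) n, (1 : ℝ) := by
      rw [ll, ← sum_add_distrib]
      refine sum_congr rfl fun j hj => ?_
      have : Y j ≠ Y t := fun e => by
        have := hi (mem_coe.2 (Ico_sub _ _ hj)) (mem_coe.2 ht) e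
        have := (mem_Ico.1 hj).1
        omega
      unfold J
      split_ifs <;> first | omega | norm_num
    rw [this]
    simp only [sum_const, nsmul_eq_mul, mul_one, Nat.card_Ico]
    rw [Nat.cast_sub (mem_range.1 ht)]
    push_cast
    ring
  have h2 : ∀ (k : ℕ) (c : ℝ), ∑ t ∈ range k, (c - t) = k * c - k * (k - 1) / 2 := by
    intro k c
    induction k with
    | zero => simp
    | succ k ih =>
      rw [sum_range_succ, ih]
      push_cast
      ring
  rw [W, ← sum_add_distrib, sum_congr rfl h1, h2]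
  ring

theorem W_shift {m : ℕ} {X : ℕ → ℕ} (hi : Set.InjOn X (range (m + 1)))
    (hX : ∀ i < m + 1, X i < m + 1) (hp : X (m + 1) = X 0) :
    W (m + 1) (fun i => X (i + 1)) = W (m + 1) X + (m - 2 * X 0) := by
  have h0 := count_lt hi hX (hX 0 (by omega)).le
  rw [sum_range_succ', J_neg (lt_irrefl _), add_zero] at h0
  have h1 : ∑ t ∈ range m, (J (X 0 < X (t + 1)) + J (X (t + 1) < X 0)) =
      ∑ _t ∈ range m, (1 : ℝ) := by
    refine sum_congr rfl fun j hj => ?_
    have : X (j + 1) ≠ X 0 := fun e => by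
      have := hi (mem_coe.2 (mem_range.2 (Nat.succ_lt_succ (mem_range.1 hj))))
        (mem_coe.2 (mem_range.2 (Nat.succ_pos m))) e
      omega
    unfold J
    split_ifs <;> first | omega | norm_num
  rw [sum_add_distrib, h0] at h1
  simp only [sum_const, card_range, nsmul_eq_mul, mul_one] at h1
  have h2 : ∀ t ∈ range m, ∑ j ∈ Ico (t + 1) (m + 1), J (X (j + 1) < X (t + 1)) =
      ∑ j ∈ Ico (t + 1 + 1) (m + 1), J (X j < X (t + 1)) + J (X 0 < X (t + 1)) := by
    intro t ht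
    rw [sum_Ico_succ_top (mem_range.1 ht), hp, sum_Ico_add' (fun j => J (X j < X (t + 1)))]
  have h3 : ∑ j ∈ Ico (0 + 1) (m + 1), J (X j < X 0) = X 0 := by
    rw [← sum_Ico_add' (fun j => J (X j < X 0)), ← range_eq_Ico, h0]
  rw [W, W, sum_range_succ, Ico_self, sum_empty, sum_congr rfl h2, sum_range_succ', h3,
    sum_add_distrib]
  linarith

theorem quarter (L : ℕ) : ∑ i ∈ range L, √((L : ℝ) ^ 2 - ((i : ℝ) + 1) ^ 2) ≤ π / 4 * L ^ 2 := by
  rcases Nat.eq_zero_or_pos L with rfl | hL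
  · simp
  have L0 : (0 : ℝ) < L := by exact_mod_cast hL
  have h1 := AntitoneOn.sum_le_integral (f := fun x => √(1 - (x / L) ^ 2)) (x₀ := 0) (a := L)
    (fun x hx y _ hxy => by
      have := hx.1
      dsimp only
      gcongr)
  have h2 : ∫ x in (-1 : ℝ)..0, √(1 - x ^ 2) = ∫ x in (0 : ℝ)..1, √(1 - x ^ 2) := by
    have := intervalIntegral.integral_comp_neg (a := 0) (b := 1) fun x : ℝ => √(1 - x ^ 2)
    simp only [neg_sq, neg_zero] at this
    exact this.symm
  have h3 := intervalIntegral.integral_add_adjacent_intervals (μ := MeasureTheory.volume)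
    (f := fun x : ℝ => √(1 - x ^ 2)) (a := -1) (b := 0) (c := 1)
    (Continuous.intervalIntegrable (by fun_prop) _ _)
    (Continuous.intervalIntegrable (by fun_prop) _ _)
  rw [integral_sqrt_one_sub_sq, h2] at h3
  rw [intervalIntegral.integral_comp_div (fun x : ℝ => √(1 - x ^ 2)) L0.ne', zero_add, zero_div,
    div_self L0.ne', smul_eq_mul] at h1
  have h4 := mul_le_mul_of_nonneg_left h1 L0.le
  rw [mul_sum] at h4
  refine le_trans (le_of_eq (sum_congr rfl fun i _ => ?_)) (h4.trans_eq ?_)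
  · have : (L : ℝ) ^ 2 - ((i : ℝ) + 1) ^ 2 = L ^ 2 * (1 - ((0 + ((i + 1 : ℕ) : ℝ)) / L) ^ 2) := by
      push_cast
      field_simp
      ring
    rw [this, sqrt_mul (by positivity), sqrt_sq L0.le]
  · have : ∫ x in (0 : ℝ)..1, √(1 - x ^ 2) = π / 4 := by linarith
    rw [this]
    ring

theorem row (L : ℕ) (x : ℝ) : ∑ j ∈ range L, J (((j : ℝ) + 1) ^ 2 ≤ x) ≤ √x := by
  have : ∀ k : ℕ, ∑ j ∈ range k, J (((j : ℝ) + 1) ^ 2 ≤ x) ≤ min √x k := by
    intro k
    induction k with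
    | zero => simp
    | succ k ih =>
      rw [sum_range_succ]
      rw [le_min_iff] at ih ⊢
      push_cast
      by_cases h : ((k : ℝ) + 1) ^ 2 ≤ x
      · have := le_sqrt_of_sq_le h
        rw [J_pos h]
        constructor <;> linarith [ih.2]
      · rw [J_neg h]
        constructor <;> linarith [ih.1, ih.2]
  exact (this L).trans (min_le_left _ _)

theorem thr (a : ℕ) (x : ℝ) : min ((a : ℝ) ^ 2) (x - 2 * a - 1) ≤
    ∑ y ∈ range a, (2 * (y : ℝ) + 1) * J (((y : ℝ) + 1) ^ 2 < x) := by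
  induction a with
  | zero => simp
  | succ a ih =>
    rw [sum_range_succ]
    rw [min_le_iff] at ih ⊢
    push_cast
    have : (0 : ℝ) ≤ a := Nat.cast_nonneg a
    by_cases h : ((a : ℝ) + 1) ^ 2 < x
    · rw [J_pos h]
      rcases ih with ih | ih
      · left
        linarith
      · right
        linarith
    · rw [J_neg h]
      right
      rcases ih with ih | ih <;> nlinarith

/-- The sorting key of the extremal word. -/
def ky (A L v : ℕ) : ℝ := if v < A then ((A : ℝ) - v) ^ 2 else (L : ℝ) ^ 2 - ((v : ℝ) - A + 1) ^ 2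

section
variable {A L : ℕ} {Y : ℕ → ℕ} (hi : Set.InjOn Y (range (A + L)))
  (hY : ∀ i < A + L, Y i < A + L) (h1 : A ≤ L) (h2 : L ≤ A + 1)
  (hk : ∀ i j, i ≤ j → j < A + L → ky A L (Y i) ≤ ky A L (Y j))
include hi hY h1 h2 hk

theorem low1 : ∑ t ∈ range (A + L), ll (A + L) Y t ≤ π / 4 * L ^ 2 := by
  have e1 : ∀ t ∈ range (A + L), ll (A + L) Y t ≤ ∑ j ∈ range (A + L), J (Y t < A) *
      (J (A ≤ Y j) * J ((((Y j : ℝ) - A) + 1) ^ 2 ≤ L ^ 2 - ((A : ℝ) - Y t) ^ 2)) := by
    intro t _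
    refine le_trans (sum_le_sum fun j hj => ?_) (sum_le_sum_of_subset_of_nonneg
      (Ico_sub _ (t + 1)) fun _ _ _ => mul_nonneg (J_nonneg _)
        (mul_nonneg (J_nonneg _) (J_nonneg _)))
    by_cases h : Y t < Y j
    · have h3 := hk t j (by have := (mem_Ico.1 hj).1; omega) (mem_Ico.1 hj).2
      have h' : (Y t : ℝ) < Y j := by exact_mod_cast h
      unfold ky at h3
      split_ifs at h3 with a b b
      · have : (Y j : ℝ) < A := by exact_mod_cast b
        nlinarith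
      · rw [J_pos h, J_pos a, J_pos (not_lt.1 b), J_pos (by linarith)]
        norm_num
      · omega
      · have : (A : ℝ) ≤ Y t := by exact_mod_cast not_lt.1 a
        nlinarith
    · rw [J_neg h]
      exact mul_nonneg (J_nonneg _) (mul_nonneg (J_nonneg _) (J_nonneg _))
  have e2 : ∀ t ∈ range (A + L), ll (A + L) Y t ≤
      J (Y t < A) * √((L : ℝ) ^ 2 - ((A : ℝ) - Y t) ^ 2) := by
    intro t ht
    refine (e1 t ht).trans ?_
    rw [← mul_sum, count hi hY fun v => J (A ≤ v) *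
      J ((((v : ℝ) - A) + 1) ^ 2 ≤ L ^ 2 - ((A : ℝ) - Y t) ^ 2), sum_range_add,
      sum_eq_zero fun v hv => by rw [J_neg (not_le.2 (mem_range.1 hv)), zero_mul], zero_add]
    refine mul_le_mul_of_nonneg_left (le_trans (le_of_eq (sum_congr rfl fun j _ => ?_))
      (row L _)) (J_nonneg _)
    rw [J_pos (Nat.le_add_right _ _), one_mul]
    simp only [Nat.cast_add, add_sub_cancel_left]
  refine (sum_le_sum e2).trans ?_
  rw [count hi hY fun v => J (v < A) * √((L : ℝ) ^ 2 - ((A : ℝ) - v) ^ 2), sum_range_add,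
    sum_eq_zero (s := range L) fun v _ => by rw [J_neg (by omega), zero_mul], add_zero,
    ← sum_range_reflect]
  refine le_trans ?_ (quarter L)
  refine le_trans (le_of_eq (sum_congr rfl fun j hj => ?_)) (sum_le_sum_of_subset_of_nonneg
    (range_subset_range.2 h1) fun _ _ _ => sqrt_nonneg _)
  have := mem_range.1 hj
  rw [J_pos (by omega), one_mul, Nat.sub_sub, Nat.cast_sub (by omega)]
  push_cast
  ring_nf

theorem low2 {t : ℕ} (ht : t ≤ A + L) :
    -(4 * (L : ℝ) + 2) ≤ ∑ i ∈ range t, (((A + L : ℕ) : ℝ) - 1 - 2 * Y i) := by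
  have L0 : (0 : ℝ) ≤ L := Nat.cast_nonneg L
  have h1' : (A : ℝ) ≤ L := by exact_mod_cast h1
  have h2' : (L : ℝ) ≤ A + 1 := by exact_mod_cast h2
  rcases t with _ | t
  · rw [sum_range_zero]
    linarith
  set x := ky A L (Y t) with hx
  have xL : x ≤ (L : ℝ) ^ 2 := by
    rw [hx, ky]
    split_ifs with h
    · have : (Y t : ℝ) < A := by exact_mod_cast h
      have : (0 : ℝ) ≤ Y t := Nat.cast_nonneg _
      nlinarith
    · nlinarith [sq_nonneg ((Y t : ℝ) - A + 1)]
  let g : ℕ → ℝ := fun v => if v < A then (2 * ((A : ℝ) - v) - 1) * J (ky A L v < x)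
    else -(2 * ((v : ℝ) - A) + 1) * J (ky A L v ≤ x)
  have e1 : ∑ i ∈ range (A + L), g (Y i) ≤ ∑ i ∈ range (t + 1), (((A + L : ℕ) : ℝ) - 1 - 2 * Y i) := by
    rw [← sum_range_add_sum_Ico _ ht, ← add_zero (∑ i ∈ range (t + 1), (((A + L : ℕ) : ℝ) - _ - _))]
    refine add_le_add (sum_le_sum fun i hi => ?_) (sum_nonpos fun j hj => ?_)
    · have h3 : ky A L (Y i) ≤ x := hk i t (by have := mem_range.1 hi; omega) ht
      simp only [g]
      push_cast
      split_ifs with h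
      · have : (Y i : ℝ) + 1 ≤ A := by exact_mod_cast h
        nlinarith [J_le (ky A L (Y i) < x)]
      · rw [J_pos h3]
        linarith
    · have h3 : x ≤ ky A L (Y j) := hk t j (by have := (mem_Ico.1 hj).1; omega) (mem_Ico.1 hj).2
      simp only [g]
      split_ifs with h
      · rw [J_neg (not_lt.2 h3), mul_zero]
      · have : (A : ℝ) ≤ Y j := by exact_mod_cast not_lt.1 h
        nlinarith [J_nonneg (ky A L (Y j) ≤ x)]
  refine le_trans ?_ e1
  have e2 : ∑ v ∈ range A, g v = ∑ y ∈ range A, (2 * (y : ℝ) + 1) * J (((y : ℝ) + 1) ^ 2 < x) := by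
    rw [← sum_range_reflect]
    refine sum_congr rfl fun j hj => ?_
    have := mem_range.1 hj
    have h3 : A - 1 - j < A := by omega
    have h4 : (A : ℝ) - (A - 1 - j : ℕ) = j + 1 := by
      rw [Nat.sub_sub, Nat.cast_sub (by omega)]
      push_cast
      ring
    simp only [g, ky, if_pos h3, h4]
    ring
  have e3 : ∑ v ∈ range L, g (A + v) = ∑ y ∈ range L,
      ((2 * (y : ℝ) + 1) * J (((y : ℝ) + 1) ^ 2 < L ^ 2 - x) - (2 * (y : ℝ) + 1)) := by
    refine sum_congr rfl fun j _ => ?_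
    have h3 : ¬A + j < A := by omega
    simp only [g, ky, if_neg h3, Nat.cast_add, add_sub_cancel_left, J]
    split_ifs <;> linarith
  have e4 : ∀ k : ℕ, ∑ y ∈ range k, (2 * (y : ℝ) + 1) = k ^ 2 := by
    intro k
    induction k with
    | zero => simp
    | succ k ih =>
      rw [sum_range_succ, ih]
      push_cast
      ring
  rw [count hi hY g, sum_range_add, e2, e3, sum_sub_distrib, e4]
  have t1 := thr A x
  have t2 := thr L (L ^ 2 - x)
  have A0 : (0 : ℝ) ≤ A := Nat.cast_nonneg A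
  have x0 : 0 ≤ x := by
    rw [hx, ky]
    split_ifs with h
    · positivity
    · have : (A : ℝ) ≤ Y t := by exact_mod_cast not_lt.1 h
      have h5 : (Y t : ℝ) + 1 ≤ A + L := by exact_mod_cast hY t ht
      nlinarith
  have t3 : (L : ℝ) ^ 2 ≤ A ^ 2 + 2 * A + 1 := by nlinarith
  rw [min_le_iff] at t1 t2
  rcases t1 with t1 | t1 <;> rcases t2 with t2 | t2 <;> nlinarith

end

end Pool.Agent.P.MP_8de615_co
end

-- part Pool.Agent.P.MP_8de615_co.Graph
section

/-! From words to the graph of cycles. -/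

set_option autoImplicit false

namespace Pool.Agent.P.MP_8de615_co

open Real Finset Equiv

variable {m : ℕ}

/-- The periodic word of a permutation. -/
def word (τ : Perm (Fin (m + 1))) (i : ℕ) : ℕ := τ (Fin.ofNat (m + 1) i)

/-- The number of inversions. -/
def invs (τ : Perm (Fin (m + 1))) : ℝ := W (m + 1) (word τ)

theorem word_lt (τ : Perm (Fin (m + 1))) (i : ℕ) : word τ i < m + 1 := Fin.is_lt _

theorem word_inj (τ : Perm (Fin (m + 1))) : Set.InjOn (word τ) (range (m + 1)) := by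
  intro i hi j hj h
  have := congrArg Fin.val (τ.injective (Fin.ext h))
  simpa only [Fin.val_ofNat, Nat.mod_eq_of_lt (mem_range.1 hi),
    Nat.mod_eq_of_lt (mem_range.1 hj)] using this

theorem word_per (τ : Perm (Fin (m + 1))) (i : ℕ) : word τ (m + 1 + i) = word τ i := by
  simp only [word]
  congr 2
  ext
  simp

theorem rot_ofNat (i : ℕ) :
    finRotate (m + 1) (Fin.ofNat (m + 1) i) = Fin.ofNat (m + 1) (i + 1) := by
  rw [finRotate_apply]
  ext
  simp [Fin.val_add]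

theorem rot_pow (k i : ℕ) :
    (finRotate (m + 1) ^ k) (Fin.ofNat (m + 1) i) = Fin.ofNat (m + 1) (k + i) := by
  induction k with
  | zero => simp
  | succ k ih => rw [pow_succ', Perm.mul_apply, ih, rot_ofNat, add_right_comm]

theorem word_rot (τ : Perm (Fin (m + 1))) (k i : ℕ) :
    word (τ * finRotate (m + 1) ^ k) i = word τ (k + i) := by
  rw [word, Perm.mul_apply, rot_pow, word]

theorem invs_rot (τ : Perm (Fin (m + 1))) (k : ℕ) : invs (τ * finRotate (m + 1) ^ k) =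
    invs τ + ∑ i ∈ range k, (((m + 1 : ℕ) : ℝ) - 1 - 2 * word τ i) := by
  induction k with
  | zero => simp
  | succ k ih =>
    have := W_shift (word_inj (τ * finRotate (m + 1) ^ k)) (fun i _ => word_lt _ i)
      (word_per _ 0)
    have e : word (τ * finRotate (m + 1) ^ (k + 1)) =
        fun i => word (τ * finRotate (m + 1) ^ k) (i + 1) := by
      funext i
      rw [word_rot, word_rot, add_assoc, add_comm 1]
    rw [sum_range_succ, ← add_assoc, ← ih, invs, e, this, word_rot, invs]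
    push_cast
    ring_nf

theorem upper : ∃ C : ℝ, ∀ (m : ℕ) (τ : Perm (Fin (m + 1))), ∃ k : ℕ,
    invs (τ * finRotate (m + 1) ^ k) ≤ (8 - π) / 16 * ((m + 1 : ℕ) : ℝ) ^ 2 + C * (m + 1 : ℕ) := by
  obtain ⟨C, C0, hC⟩ := core
  refine ⟨C, fun m τ => ?_⟩
  set c := finRotate (m + 1) with hc
  obtain ⟨ρ, ⟨k1, rfl⟩, hρ⟩ := Set.exists_min_image (Set.range fun k : ℕ => τ * c ^ k) invs
    (Set.toFinite _) ⟨_, 0, rfl⟩
  refine ⟨k1, ?_⟩
  set A := (m + 1) / 2 with hA
  have hA' : A ≤ m + 1 := by omega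
  let s : ℕ → ℝ := fun k => ∑ i ∈ range k, (J (word τ i < A) - J (A ≤ word τ i))
  have hs : ∀ r, s (m + 1 + r) = s r + (2 * A - (m + 1 : ℕ)) := by
    intro r
    have h1 := pp_rest (word_inj τ) (fun i _ => word_lt τ i) hA' le_rfl
    have h2 := count_lt (word_inj τ) (fun i _ => word_lt τ i) hA'
    simp only [s, sum_range_add _ (m + 1), word_per]
    rw [sum_sub_distrib, h1, h2, pp, Ico_self, sum_empty]
    ring
  obtain ⟨k0, hk0, hmin⟩ := exists_min_image (range (m + 1)) s ⟨0, by simp⟩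
  have A1 : 2 * (A : ℝ) ≤ (m + 1 : ℕ) := by exact_mod_cast (by omega : 2 * A ≤ m + 1)
  have := hC (m + 1) A (word (τ * c ^ k0)) ((invs (τ * c ^ k0) - invs (τ * c ^ k1)) / 2)
    (word_inj _) (fun i _ => word_lt _ i) (by omega) (by omega) (by omega)
    (fun t ht => by
      have h1 := pp_rest (word_inj (τ * c ^ k0)) (fun i _ => word_lt _ i) hA' ht
      have h2 : s (k0 + t) = s k0 + (qq A (word (τ * c ^ k0)) t -
          ∑ i ∈ range t, J (A ≤ word (τ * c ^ k0) i)) := by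
        simp only [s, sum_range_add _ k0, qq, hc, word_rot, sum_sub_distrib]
        ring
      have h3 : s k0 + (2 * A - (m + 1 : ℕ)) ≤ s (k0 + t) := by
        rcases lt_or_ge (k0 + t) (m + 1) with h | h
        · linarith [hmin _ (mem_range.2 h)]
        · obtain ⟨r, hr⟩ := Nat.exists_eq_add_of_le h
          have := mem_range.1 hk0
          rw [hr, hs]
          linarith [hmin r (mem_range.2 (by omega))]
      linarith)
    (by linarith [hρ _ ⟨k0, rfl⟩])
    (by
      have h1 := W_le (m + 1) (word (τ * c ^ k0))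
      have h2 := W_nonneg (m + 1) (word (τ * c ^ k1))
      have h3 := W_nonneg (m + 1) (word (τ * c ^ k0))
      simp only [invs]
      linarith)
    (fun t _ => by
      have h1 := invs_rot (τ * c ^ k0) t
      have h2 := hρ _ ⟨k0 + t, rfl⟩
      rw [mul_assoc, ← pow_add] at h1
      linarith)
  have h2 := W_add (word_inj (τ * c ^ k0))
  have h3 : (0 : ℝ) ≤ (m + 1 : ℕ) := Nat.cast_nonneg _
  simp only [invs] at this ⊢
  linarith

theorem lower (m : ℕ) : ∃ σ : Perm (Fin (m + 1)), ∀ k ≤ m + 1,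
    (8 - π) / 16 * ((m + 1 : ℕ) : ℝ) ^ 2 - 10 * (m + 1 : ℕ) ≤ invs (σ * finRotate (m + 1) ^ k) := by
  obtain ⟨A, L, e, h1, h2⟩ : ∃ A L, m + 1 = A + L ∧ A ≤ L ∧ L ≤ A + 1 :=
    ⟨(m + 1) / 2, m + 1 - (m + 1) / 2, by omega, by omega, by omega⟩
  let f : Fin (m + 1) → ℝ := fun v => ky A L v
  refine ⟨Tuple.sort f, fun k hk => ?_⟩
  have hk' : ∀ i j, i ≤ j → j < A + L →
      ky A L (word (Tuple.sort f) i) ≤ ky A L (word (Tuple.sort f) j) := by
    intro i j hij hj
    refine Tuple.monotone_sort f (a := Fin.ofNat (m + 1) i) (b := Fin.ofNat (m + 1) j) ?_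
    rw [Fin.le_def, Fin.val_ofNat, Fin.val_ofNat, Nat.mod_eq_of_lt (by omega),
      Nat.mod_eq_of_lt (by omega)]
    exact hij
  have hi := word_inj (Tuple.sort f)
  have h3 := W_add hi
  have hY : ∀ i < A + L, word (Tuple.sort f) i < A + L := fun i _ => e ▸ word_lt _ i
  rw [invs_rot, invs]
  generalize word (Tuple.sort f) = Y at *
  rw [e] at hi h3 hk ⊢
  have l1 := low1 hi hY h1 h2 hk'
  have l2 := low2 hi hY h1 h2 hk' hk
  have h1' : (A : ℝ) ≤ L := by exact_mod_cast h1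
  have h2' : (L : ℝ) ≤ A + 1 := by exact_mod_cast h2
  have A0 : (0 : ℝ) ≤ A := Nat.cast_nonneg A
  have h4 : (1 : ℝ) ≤ A + L := by exact_mod_cast (by omega : 1 ≤ A + L)
  have h5 : 4 * (L : ℝ) ^ 2 ≤ (A + L) ^ 2 + 3 * (A + L) := by nlinarith
  have h6 := mul_le_mul_of_nonneg_left h5 pi_pos.le
  have h7 := mul_le_mul_of_nonneg_right pi_le_four (by linarith : (0 : ℝ) ≤ A + L)
  push_cast at *
  linarith

theorem invs_eq (τ : Perm (Fin (m + 1))) : invs τ = ∑ i, ∑ j, J (i < j) * J (τ j < τ i) := by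
  rw [invs, W, sum_range]
  refine sum_congr rfl fun i _ => ?_
  have : ∑ j ∈ range (m + 1), J ((i : ℕ) < j) * J (word τ j < word τ i) =
      ∑ j ∈ Ico (i + 1 : ℕ) (m + 1), J (word τ j < word τ i) := by
    rw [← sum_range_add_sum_Ico _ (Nat.succ_le_of_lt i.is_lt), sum_eq_zero fun j hj => by
      rw [J_neg (by have := mem_range.1 hj; omega), zero_mul], zero_add]
    exact sum_congr rfl fun j hj => by
      rw [J_pos (show (i : ℕ) < j from (mem_Ico.1 hj).1), one_mul]
  rw [← this, sum_range]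
  refine sum_congr rfl fun j _ => ?_
  simp only [word, Fin.ofNat_val_eq_self]
  rfl

theorem invs_swap (τ : Perm (Fin (m + 1))) {u v : Fin (m + 1)} (h : (v : ℕ) = u + 1) :
    invs (swap u v * τ) = invs τ + J (τ⁻¹ u < τ⁻¹ v) - J (τ⁻¹ v < τ⁻¹ u) := by
  have e1 : ∀ x y : Fin (m + 1), J (swap u v y < swap u v x) =
      J (y < x) + J (x = u) * J (y = v) - J (x = v) * J (y = u) := by
    intro x y
    simp only [swap_apply_def, J, Fin.lt_def, Fin.ext_iff, apply_ite Fin.val]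
    split_ifs <;> first | omega | norm_num
  have e2 : ∀ u v : Fin (m + 1), ∑ i, ∑ j, J (i < j) * (J (τ i = u) * J (τ j = v)) =
      J (τ⁻¹ u < τ⁻¹ v) := by
    intro u v
    simp only [← Perm.eq_inv_iff_eq]
    simp [J]
  rw [invs_eq, invs_eq, ← e2, ← e2, ← sum_add_distrib, ← sum_sub_distrib]
  refine sum_congr rfl fun i _ => ?_
  rw [← sum_add_distrib, ← sum_sub_distrib]
  refine sum_congr rfl fun j _ => ?_
  rw [show J ((swap u v * τ) j < (swap u v * τ) i) = _ from e1 (τ i) (τ j)]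
  ring

theorem descent (τ : Perm (Fin (m + 1))) (h : τ ≠ 1) :
    ∃ u v : Fin (m + 1), (v : ℕ) = u + 1 ∧ invs (swap u v * τ) = invs τ - 1 := by
  by_contra hn
  have : StrictMono ⇑τ⁻¹ := by
    refine Fin.strictMono_iff_lt_succ.2 fun i => lt_of_not_ge fun hi => hn ⟨i.castSucc, i.succ,
      by simp, ?_⟩
    have h2 : τ⁻¹ i.succ < τ⁻¹ i.castSucc :=
      lt_of_le_of_ne hi fun e => (Fin.castSucc_lt_succ (i := i)).ne' (τ⁻¹.injective e)
    rw [invs_swap τ (by simp), J_pos h2, J_neg (not_lt.2 hi), add_zero]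
  exact h (inv_eq_one.1 (Equiv.ext fun x => this.apply_eq))

theorem rot_cyc (m : ℕ) : (finRotate (m + 1)).IsCycleOn Set.univ := by
  rcases m with _ | m
  · exact Perm.isCycleOn_of_subsingleton (α := Fin 1) _ _
  · have := (isCycle_finRotate (n := m)).isCycleOn
    rwa [Set.eq_univ_of_forall (s := {x | finRotate (m + 2) x ≠ x}) fun x =>
      Perm.mem_support.1 (by rw [support_finRotate]; exact mem_univ x)] at this

/-- The cycle whose cyclic word is the word of `τ`. -/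
def cj (τ : Perm (Fin (m + 1))) : Cycles (m + 1) :=
  ⟨τ * finRotate (m + 1) * τ⁻¹, by
    have := (rot_cyc m).conj (g := τ)
    rwa [Set.image_univ_of_surjective τ.surjective] at this⟩

theorem cj_surj (γ : Cycles (m + 1)) : ∃ τ, γ = cj τ := by
  rcases m with _ | m
  · exact ⟨1, Subtype.ext (Subsingleton.elim (α := Perm (Fin 1)) _ _)⟩
  · have hn : (Set.univ : Set (Fin (m + 2))).Nontrivial := Set.nontrivial_univ
    have h1 : γ.1.IsCycle := Perm.isCycle_iff_exists_isCycleOn.2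
      ⟨_, hn, γ.2, fun _ _ => Set.mem_univ _⟩
    have h2 : γ.1.support = univ := eq_univ_of_forall fun x =>
      Perm.mem_support.2 (γ.2.apply_ne hn (Set.mem_univ x))
    obtain ⟨τ, hτ⟩ := isConj_iff.1 ((isCycle_finRotate (n := m)).isConj h1
      (by rw [h2, support_finRotate]))
    exact ⟨τ, Subtype.ext hτ.symm⟩

theorem cj_rot (τ : Perm (Fin (m + 1))) (k : ℕ) : cj (τ * finRotate (m + 1) ^ k) = cj τ := by
  refine Subtype.ext ?_
  simp only [cj]
  group

theorem cj_inj {σ τ : Perm (Fin (m + 1))} (h : cj σ = cj τ) :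
    ∃ k ≤ m + 1, τ = σ * finRotate (m + 1) ^ k := by
  have h1 : σ⁻¹ * τ * finRotate (m + 1) = finRotate (m + 1) * (σ⁻¹ * τ) := by
    have : σ * finRotate (m + 1) * σ⁻¹ = τ * finRotate (m + 1) * τ⁻¹ := congrArg Subtype.val h
    calc _ = σ⁻¹ * (τ * finRotate (m + 1) * τ⁻¹) * τ := by group
      _ = _ := by
        rw [← this]
        group
  refine ⟨(σ⁻¹ * τ) (Fin.ofNat (m + 1) 0), (Fin.is_lt _).le, ?_⟩
  have h2 : ∀ i : ℕ, (σ⁻¹ * τ) (Fin.ofNat (m + 1) i) =
      Fin.ofNat (m + 1) ((σ⁻¹ * τ) (Fin.ofNat (m + 1) 0) + i) := by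
    intro i
    induction i with
    | zero => rw [add_zero, Fin.ofNat_val_eq_self]
    | succ i ih =>
      rw [← rot_ofNat, ← Perm.mul_apply, h1, Perm.mul_apply, ih, rot_ofNat, add_assoc]
  rw [← inv_mul_eq_iff_eq_mul]
  ext1 x
  rw [← Fin.ofNat_val_eq_self x, h2, rot_pow]

theorem cj_swap (τ : Perm (Fin (m + 1))) (u v : Fin (m + 1)) :
    (cj (swap u v * τ)).1 = swap u v * (cj τ).1 * swap u v := by
  simp only [cj, mul_inv_rev, swap_inv, mul_assoc]

theorem edist_cj (k : ℕ) : ∀ τ : Perm (Fin (m + 1)), invs τ < k + 1 →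
    (Gamma (m + 1)).edist (cj 1) (cj τ) ≤ k := by
  induction k with
  | zero =>
    intro τ h
    by_cases h1 : τ = 1
    · simp [h1]
    · obtain ⟨u, v, -, h2⟩ := descent τ h1
      have : 0 ≤ invs (swap u v * τ) := W_nonneg _ _
      push_cast at h
      linarith
  | succ k ih =>
    intro τ h
    by_cases h1 : τ = 1
    · simp [h1]
    · obtain ⟨u, v, huv, h2⟩ := descent τ h1
      have h3 := ih (swap u v * τ) (by push_cast at h; linarith)
      have h4 : (Gamma (m + 1)).edist (cj (swap u v * τ)) (cj τ) ≤ 1 := by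
        rw [SimpleGraph.edist_le_one_iff_adj_or_eq, or_iff_not_imp_right]
        exact fun hne => (SimpleGraph.fromRel_adj _ _ _).2
          ⟨hne, Or.inr ⟨u, v, huv, cj_swap τ u v⟩⟩
      refine SimpleGraph.edist_triangle.trans ((add_le_add h3 h4).trans_eq ?_)
      push_cast
      rfl

theorem walk_cj {x y : Cycles (m + 1)} (p : (Gamma (m + 1)).Walk x y) (σ : Perm (Fin (m + 1)))
    (h : y = cj σ) : ∃ τ, x = cj τ ∧ invs τ ≤ invs σ + p.length := by
  induction p with
  | nil => exact ⟨σ, h, by simp⟩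
  | @cons x z y hxz p ih =>
    obtain ⟨τ, rfl, h2⟩ := ih h
    obtain ⟨u, v, huv, h3⟩ : ∃ u v : Fin (m + 1), (v : ℕ) = u + 1 ∧
        x.1 = swap u v * (cj τ).1 * swap u v := by
      obtain ⟨-, ⟨u, v, huv, h3⟩ | h3⟩ := (SimpleGraph.fromRel_adj _ _ _).1 hxz
      · refine ⟨u, v, huv, ?_⟩
        rw [h3]
        simp only [mul_assoc, swap_mul_self, mul_one, swap_mul_self_mul]
      · exact h3
    refine ⟨swap u v * τ, Subtype.ext (h3.trans (cj_swap τ u v).symm), ?_⟩
    rw [invs_swap τ huv, SimpleGraph.Walk.length_cons]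
    push_cast
    linarith [J_le (τ⁻¹ u < τ⁻¹ v), J_nonneg (τ⁻¹ v < τ⁻¹ u)]

theorem invs_one : invs (1 : Perm (Fin (m + 1))) = 0 := by
  rw [invs_eq]
  refine sum_eq_zero fun i _ => sum_eq_zero fun j _ => ?_
  by_cases h : i < j
  · rw [J_neg (show ¬(1 : Perm (Fin (m + 1))) j < (1 : Perm (Fin (m + 1))) i from h.not_gt),
      mul_zero]
  · rw [J_neg h, zero_mul]

theorem final : ∃ C : ℝ, ∀ n : ℕ, 1 ≤ n → ∃ c : Cycles n, c.1 = finRotate n ∧ ∃ s : ℕ,
    (Gamma n).eccent c = s ∧ |(s : ℝ) - (8 - π) / 16 * (n : ℝ) ^ 2| ≤ C * n := by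
  obtain ⟨C, hC⟩ := upper
  refine ⟨max C 10, fun n hn => ?_⟩
  obtain ⟨m, rfl⟩ : ∃ m, n = m + 1 := ⟨n - 1, by omega⟩
  refine ⟨cj 1, by simp [cj], ?_⟩
  haveI : Finite (Cycles (m + 1)) := Subtype.finite
  obtain ⟨γ, hγ⟩ := (Gamma (m + 1)).exists_edist_eq_eccent_of_finite (cj 1)
  obtain ⟨τ, rfl⟩ := cj_surj γ
  obtain ⟨k, hk⟩ := hC m τ
  have h1 := edist_cj _ (τ * finRotate (m + 1) ^ k) (Nat.lt_floor_add_one _)
  rw [cj_rot, hγ] at h1
  obtain ⟨s, hs⟩ := ENat.ne_top_iff_exists.1 (ne_top_of_le_ne_top (ENat.coe_ne_top _) h1)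
  refine ⟨s, hs.symm, ?_⟩
  have n0 : (0 : ℝ) ≤ (m + 1 : ℕ) := Nat.cast_nonneg _
  have c1 := mul_le_mul_of_nonneg_right (le_max_left C 10) n0
  have c2 := mul_le_mul_of_nonneg_right (le_max_right C 10) n0
  rw [← hs, Nat.cast_le] at h1
  have h2 : (s : ℝ) ≤ invs (τ * finRotate (m + 1) ^ k) :=
    (Nat.cast_le.2 h1).trans (Nat.floor_le (W_nonneg _ _))
  obtain ⟨σ, hσ⟩ := lower m
  have h3 : (Gamma (m + 1)).edist (cj σ) (cj 1) ≤ s := by
    rw [SimpleGraph.edist_comm, hs]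
    exact SimpleGraph.edist_le_eccent
  obtain ⟨p, hp⟩ := SimpleGraph.exists_walk_of_edist_ne_top
    (ne_top_of_le_ne_top (ENat.coe_ne_top _) h3)
  rw [← hp, Nat.cast_le] at h3
  obtain ⟨ρ, h4, h5⟩ := walk_cj p 1 rfl
  obtain ⟨j, hj, rfl⟩ := cj_inj h4
  have h6 := hσ j hj
  have h7 : (p.length : ℝ) ≤ s := Nat.cast_le.2 h3
  rw [invs_one] at h5
  rw [abs_le]
  constructor <;> linarith

end Pool.Agent.P.MP_8de615_co
end
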